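import Mathlib

set_option autoImplicit false

/-!
# Labelled rooted trees: bisections and rankings

Combinatorial part. `RT L` is a finite rooted tree whose vertices carry a label in `L`, or no label.
`Lev T n C t` says that the connected set `C` with top vertex `t` can be bisected `n` times.
`Rk T w l a` says that there is a ranking of `T` (in every connected set the vertex of the minimal
rank is unique) whose values are smaller than `a + w`, and smaller than `a` at the vertices whose label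
is not `l`. For every finite set `L` of labels and all `k ≤ w` we construct trees which can be bisected
`n` times, with `Rk T w l a` for all labels `l`, where `a + k = n + 1`.
-/

namespace Pool.Agent.K7.H71.MaxSub

/-- Labelled rooted trees. -/
structure RT (L : Type) where
  /-- the vertices -/
  V : Type
  [fin : Finite V]
  /-- the parent of a vertex -/
  par : V → Option V
  /-- the root -/
  root : V
  /-- a height function -/
  ht : V → ℕ
  /-- a bound of the height function -/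
  N : ℕ
  /-- the labels -/
  lab : V → Option L
  ht_lt : ∀ v, ht v < N
  par_ht : ∀ u v, par u = some v → ht u < ht v
  par_none : ∀ v, par v = none ↔ v = root

attribute [instance] RT.fin

namespace RT

variable {L : Type}

/-- a single vertex -/
abbrev leaf (l : Option L) : RT L where
  V := Unit
  par := fun _ => none
  root := ()
  ht := fun _ => 0
  N := 1
  lab := fun _ => l
  ht_lt := fun _ => Nat.one_pos
  par_ht := fun _ _ h => by simp at h
  par_none := fun _ => by simp

/-- the tree `c` is attached to the root of `p` -/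
abbrev graft (c p : RT L) : RT L where
  V := c.V ⊕ p.V
  par := Sum.elim (fun v => match c.par v with
    | some u => some (Sum.inl u)
    | none => some (Sum.inr p.root)) (fun v => (p.par v).map Sum.inr)
  root := Sum.inr p.root
  ht := Sum.elim c.ht (fun v => c.N + p.ht v)
  N := c.N + p.N
  lab := Sum.elim c.lab p.lab
  ht_lt := by
    rintro (v | v)
    · have := c.ht_lt v
      simp only [Sum.elim_inl]; omega
    · have := p.ht_lt v
      simp only [Sum.elim_inr]; omega
  par_ht := by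
    rintro (u | u) v h
    · simp only [Sum.elim_inl] at h
      cases hc : c.par u with
      | none =>
        rw [hc] at h
        simp only [Option.some.injEq] at h
        subst h
        have := c.ht_lt u
        simp only [Sum.elim_inl, Sum.elim_inr]; omega
      | some w =>
        rw [hc] at h
        simp only [Option.some.injEq] at h
        subst h
        exact c.par_ht u w hc
    · simp only [Sum.elim_inr, Option.map_eq_some_iff] at h
      obtain ⟨w, hw, rfl⟩ := h
      have := p.par_ht u w hw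
      simp only [Sum.elim_inr]; omega
  par_none := by
    rintro (v | v)
    · simp only [Sum.elim_inl, reduceCtorEq, iff_false]
      cases hc : c.par v <;> simp
    · simp only [Sum.elim_inr, Option.map_eq_none_iff, p.par_none, Sum.inr.injEq]

lemma graft_par_inl {c p : RT L} {v u : c.V} (h : c.par v = some u) :
    (graft c p).par (Sum.inl v) = some (Sum.inl u) := by
  simp only [graft, Sum.elim_inl, h]

lemma graft_par_root {c p : RT L} :
    (graft c p).par (Sum.inl c.root) = some (Sum.inr p.root) := by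
  have h := (c.par_none c.root).2 rfl
  simp only [graft, Sum.elim_inl, h]

lemma graft_par_inr {c p : RT L} {v u : p.V} (h : p.par v = some u) :
    (graft c p).par (Sum.inr v) = some (Sum.inr u) := by
  simp only [graft, Sum.elim_inr, h, Option.map_some]

lemma graft_par_inl_inl {c p : RT L} {v u : c.V}
    (h : (graft c p).par (Sum.inl v) = some (Sum.inl u)) : c.par v = some u := by
  simp only [graft, Sum.elim_inl] at h
  cases hc : c.par v with
  | none => rw [hc] at h; simp at h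
  | some w => rw [hc] at h; simpa using h

lemma graft_par_inl_inr {c p : RT L} {v : c.V} {u : p.V}
    (h : (graft c p).par (Sum.inl v) = some (Sum.inr u)) : v = c.root ∧ u = p.root := by
  simp only [graft, Sum.elim_inl] at h
  cases hc : c.par v with
  | none =>
    rw [hc] at h
    exact ⟨(c.par_none v).1 hc, by simpa using h.symm⟩
  | some w => rw [hc] at h; simp at h

lemma graft_par_inr_inr {c p : RT L} {v u : p.V}
    (h : (graft c p).par (Sum.inr v) = some (Sum.inr u)) : p.par v = some u := by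
  simp only [graft, Sum.elim_inr, Option.map_eq_some_iff] at h
  obtain ⟨w, hw, h⟩ := h
  rw [hw, Sum.inr_injective h]

lemma graft_par_inr_inl {c p : RT L} {v : p.V} {u : c.V}
    (h : (graft c p).par (Sum.inr v) = some (Sum.inl u)) : False := by
  simp [graft] at h

/-- `C` is connected, and `t` is its top vertex -/
def IsConn (T : RT L) (C : Set T.V) (t : T.V) : Prop :=
  t ∈ C ∧ ∀ v ∈ C, v ≠ t → ∃ u ∈ C, T.par v = some u

/-- rankings -/
def Rank (T : RT L) (p : T.V → ℕ) : Prop :=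
  ∀ C t, IsConn T C t → ∀ u ∈ C, ∀ v ∈ C, u ≠ v → p u = p v → ∃ w ∈ C, p w < p u

/-- iterated bisections -/
inductive Lev (T : RT L) : ℕ → Set T.V → T.V → Prop
  | zero (t : T.V) : Lev T 0 {t} t
  | succ (n : ℕ) (C C' : Set T.V) (t t' : T.V) : Lev T n C t → Lev T n C' t' → t ∉ C' →
      (∃ u ∈ C', T.par t = some u) → Lev T (n + 1) (C ∪ C') t'

lemma IsConn.ht_le {T : RT L} {C : Set T.V} {t : T.V} (h : IsConn T C t) {v : T.V} (hv : v ∈ C) :
    T.ht v ≤ T.ht t := by
  by_contra hlt
  push Not at hlt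
  have : ∀ n : ℕ, ∃ u ∈ C, T.ht t < T.ht u ∧ n ≤ T.ht u := by
    intro n
    induction n with
    | zero => exact ⟨v, hv, hlt, Nat.zero_le _⟩
    | succ n ih =>
      obtain ⟨u, hu, h1, h2⟩ := ih
      have hne : u ≠ t := by rintro rfl; exact lt_irrefl _ h1
      obtain ⟨w, hw, hp⟩ := h.2 u hu hne
      have := T.par_ht u w hp
      exact ⟨w, hw, by omega, by omega⟩
  obtain ⟨u, _, _, h2⟩ := this T.N
  have := T.ht_lt u
  omega

/-- a nonempty set has an element of maximal height -/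
lemma exists_max (T : RT L) {C : Set T.V} (h : C.Nonempty) : ∃ u ∈ C, ∀ v ∈ C, T.ht v ≤ T.ht u := by
  obtain ⟨u, hu, hm⟩ := Set.exists_max_image C T.ht (Set.toFinite C) h
  exact ⟨u, hu, hm⟩

lemma IsConn.inl {c p : RT L} {C : Set c.V} {t : c.V} (h : IsConn c C t) :
    IsConn (graft c p) (Sum.inl '' C) (Sum.inl t) := by
  refine ⟨⟨t, h.1, rfl⟩, ?_⟩
  rintro _ ⟨v, hv, rfl⟩ hne
  obtain ⟨u, hu, hp⟩ := h.2 v hv (fun e => hne (by rw [e]))
  exact ⟨Sum.inl u, ⟨u, hu, rfl⟩, graft_par_inl hp⟩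

lemma IsConn.inr {c p : RT L} {C : Set p.V} {t : p.V} (h : IsConn p C t) :
    IsConn (graft c p) (Sum.inr '' C) (Sum.inr t) := by
  refine ⟨⟨t, h.1, rfl⟩, ?_⟩
  rintro _ ⟨v, hv, rfl⟩ hne
  obtain ⟨u, hu, hp⟩ := h.2 v hv (fun e => hne (by rw [e]))
  exact ⟨Sum.inr u, ⟨u, hu, rfl⟩, graft_par_inr hp⟩

lemma Lev.inl {c p : RT L} {n : ℕ} {C : Set c.V} {t : c.V} (h : Lev c n C t) :
    Lev (graft c p) n (Sum.inl '' C) (Sum.inl t) := by
  induction h with
  | zero t => rw [Set.image_singleton]; exact Lev.zero _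
  | succ n C C' t t' _ _ h3 h4 ih1 ih2 =>
    rw [Set.image_union]
    refine Lev.succ n _ _ _ _ ih1 ih2 ?_ ?_
    · rintro ⟨u, hu, e⟩
      exact h3 (Sum.inl_injective e ▸ hu)
    · obtain ⟨u, hu, hp⟩ := h4
      exact ⟨Sum.inl u, ⟨u, hu, rfl⟩, graft_par_inl hp⟩

lemma Lev.inr {c p : RT L} {n : ℕ} {C : Set p.V} {t : p.V} (h : Lev p n C t) :
    Lev (graft c p) n (Sum.inr '' C) (Sum.inr t) := by
  induction h with
  | zero t => rw [Set.image_singleton]; exact Lev.zero _
  | succ n C C' t t' _ _ h3 h4 ih1 ih2 =>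
    rw [Set.image_union]
    refine Lev.succ n _ _ _ _ ih1 ih2 ?_ ?_
    · rintro ⟨u, hu, e⟩
      exact h3 (Sum.inr_injective e ▸ hu)
    · obtain ⟨u, hu, hp⟩ := h4
      exact ⟨Sum.inr u, ⟨u, hu, rfl⟩, graft_par_inr hp⟩

/-- the whole tree can be bisected `n` times -/
def Bis (T : RT L) (n : ℕ) : Prop := Lev T n Set.univ T.root

lemma Bis.leaf (l : Option L) : Bis (leaf l) 0 := by
  have h : (Set.univ : Set (RT.leaf l).V) = {()} := by
    ext x; simp only [Set.mem_univ, Set.mem_singleton_iff]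
  unfold Bis
  rw [h]
  exact Lev.zero _

lemma Bis.graft {c p : RT L} {n : ℕ} (hc : Bis c n) (hp : Bis p n) : Bis (graft c p) (n + 1) := by
  have h : (Set.univ : Set (RT.graft c p).V) = Sum.inl '' Set.univ ∪ Sum.inr '' Set.univ := by
    ext x
    rcases x with x | x <;> simp
  unfold Bis
  rw [h]
  refine Lev.succ n _ _ (Sum.inl c.root) _ (Lev.inl hc) (Lev.inr hp) ?_ ?_
  · rintro ⟨u, _, e⟩
    simp at e
  · exact ⟨Sum.inr p.root, ⟨_, Set.mem_univ _, rfl⟩, graft_par_root⟩

/-- classification of the connected subsets of `graft c p` -/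
lemma conn_graft {c p : RT L} {C : Set (graft c p).V} {t : (graft c p).V}
    (h : IsConn (graft c p) C t) :
    (∃ s, IsConn c (Sum.inl ⁻¹' C) s ∨ Sum.inl ⁻¹' C = ∅) ∧
    (∃ s, IsConn p (Sum.inr ⁻¹' C) s ∨ Sum.inr ⁻¹' C = ∅) ∧
    ((∃ v, Sum.inl v ∈ C) → (∃ v, Sum.inr v ∈ C) → Sum.inl c.root ∈ C ∧ Sum.inr p.root ∈ C) := by
  rcases t with t | t
  · -- the top lies in `c`
    have hp : ∀ v : p.V, Sum.inr v ∉ C := by
      intro v hv
      have h1 : (Sum.inr ⁻¹' C : Set p.V).Nonempty := ⟨v, hv⟩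
      obtain ⟨u, hu, hm⟩ := exists_max p h1
      obtain ⟨w, hw, hpar⟩ := h.2 (Sum.inr u) hu (by simp)
      rcases w with w | w
      · exact graft_par_inr_inl hpar
      · have h2 := p.par_ht _ _ (graft_par_inr_inr hpar)
        have h3 := hm w hw
        omega
    refine ⟨⟨t, Or.inl ⟨h.1, ?_⟩⟩, ⟨p.root, Or.inr ?_⟩, ?_⟩
    · intro v hv hne
      obtain ⟨w, hw, hpar⟩ := h.2 (Sum.inl v) hv (fun e => hne (Sum.inl_injective e))
      rcases w with w | w
      · exact ⟨w, hw, graft_par_inl_inl hpar⟩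
      · exact absurd hw (hp w)
    · ext v
      simp [hp v]
    · rintro _ ⟨v, hv⟩
      exact absurd hv (hp v)
  · -- the top lies in `p`
    have hc : ∀ v : c.V, Sum.inl v ∈ C → Sum.inl c.root ∈ C ∧ Sum.inr p.root ∈ C := by
      intro v hv
      have h1 : (Sum.inl ⁻¹' C : Set c.V).Nonempty := ⟨v, hv⟩
      obtain ⟨u, hu, hm⟩ := exists_max c h1
      obtain ⟨w, hw, hpar⟩ := h.2 (Sum.inl u) hu (by simp)
      rcases w with w | w
      · have h2 := c.par_ht _ _ (graft_par_inl_inl hpar)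
        have h3 := hm w hw
        omega
      · obtain ⟨h2, h3⟩ := graft_par_inl_inr hpar
        subst h2; subst h3
        exact ⟨hu, hw⟩
    refine ⟨⟨c.root, ?_⟩, ⟨t, Or.inl ⟨h.1, ?_⟩⟩, fun ⟨v, hv⟩ _ => hc v hv⟩
    · by_cases he : ∃ v, Sum.inl v ∈ C
      · obtain ⟨v, hv⟩ := he
        left
        refine ⟨(hc v hv).1, ?_⟩
        intro v hv hne
        obtain ⟨w, hw, hpar⟩ := h.2 (Sum.inl v) hv (by simp)
        rcases w with w | w
        · exact ⟨w, hw, graft_par_inl_inl hpar⟩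
        · exact absurd (graft_par_inl_inr hpar).1 hne
      · right
        push Not at he
        ext v
        simp [he v]
    · intro v hv hne
      obtain ⟨w, hw, hpar⟩ := h.2 (Sum.inr v) hv (fun e => hne (Sum.inr_injective e))
      rcases w with w | w
      · exact absurd (graft_par_inr_inl hpar) (by simp)
      · exact ⟨w, hw, graft_par_inr_inr hpar⟩

/-- rankings with values smaller than `a + w`, and smaller than `a` outside of the label `l` -/
def Rk (T : RT L) (w : ℕ) (l : L) (a : ℕ) : Prop :=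
  ∃ p, Rank T p ∧ (∀ v, T.lab v ≠ some l → p v < a) ∧ ∀ v, p v < a + w

/-- the same, and the root has the rank `0` -/
def Rkc (T : RT L) (w : ℕ) (l : L) (a : ℕ) : Prop :=
  ∃ p, Rank T p ∧ (∀ v, T.lab v ≠ some l → p v < a) ∧ (∀ v, p v < a + w) ∧ p T.root = 0

lemma Rkc.rk {T : RT L} {w : ℕ} {l : L} {a : ℕ} (h : Rkc T w l a) : Rk T w l a := by
  obtain ⟨p, h1, h2, h3, _⟩ := h
  exact ⟨p, h1, h2, h3⟩

lemma Rk.mono {T : RT L} {w : ℕ} {l : L} {a b : ℕ} (h : Rk T w l a) (hab : a ≤ b) : Rk T w l b := by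
  obtain ⟨p, h1, h2, h3⟩ := h
  exact ⟨p, h1, fun v hv => lt_of_lt_of_le (h2 v hv) hab, fun v => lt_of_lt_of_le (h3 v) (by omega)⟩

lemma Rkc.mono {T : RT L} {w : ℕ} {l : L} {a b : ℕ} (h : Rkc T w l a) (hab : a ≤ b) :
    Rkc T w l b := by
  obtain ⟨p, h1, h2, h3, h4⟩ := h
  exact ⟨p, h1, fun v hv => lt_of_lt_of_le (h2 v hv) hab,
    fun v => lt_of_lt_of_le (h3 v) (by omega), h4⟩

open Classical in
/-- a new rank `0` for the root -/
lemma Rank.shift {T : RT L} {p : T.V → ℕ} (h : Rank T p) :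
    Rank T (fun v => if v = T.root then 0 else p v + 1) := by
  intro C t hC u hu v hv hne he
  by_cases hr : T.root ∈ C
  · by_cases hur : u = T.root
    · have hvr : v ≠ T.root := fun e => hne (hur.trans e.symm)
      simp only [if_pos hur, if_neg hvr] at he
      omega
    · refine ⟨T.root, hr, ?_⟩
      simp only [if_true, if_neg hur]
      omega
  · have hh : ∀ x ∈ C, x ≠ T.root := fun x hx e => hr (e ▸ hx)
    simp only [if_neg (hh u hu), if_neg (hh v hv)] at he ⊢
    obtain ⟨w, hw, hlt⟩ := h C t hC u hu v hv hne (by omega)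
    refine ⟨w, hw, ?_⟩
    simp only [if_neg (hh w hw)]
    omega

lemma Rk.shift {T : RT L} {w : ℕ} {l : L} {a : ℕ} (h : Rk T w l a) : Rkc T w l (a + 1) := by
  classical
  obtain ⟨p, h1, h2, h3⟩ := h
  refine ⟨_, h1.shift, ?_, ?_, ?_⟩
  · intro v hv
    have := h2 v hv
    split_ifs <;> omega
  · intro v
    have := h3 v
    split_ifs <;> omega
  · exact if_pos rfl

/-- the general rule for the ranking of `graft c p` -/
lemma rank_graft {c p : RT L} {q : c.V → ℕ} {r : p.V → ℕ} (hq : Rank c q) (hr : Rank p r)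
    (h : (q c.root = 0 ∧ ∀ v, 0 < r v) ∨ (r p.root = 0 ∧ ∀ v, 0 < q v)) :
    Rank (graft c p) (Sum.elim q r) := by
  intro C t hC u hu v hv hne he
  obtain ⟨⟨s, hs⟩, ⟨s', hs'⟩, hcross⟩ := conn_graft hC
  by_cases hcr : (∃ v, Sum.inl v ∈ C) ∧ ∃ v, Sum.inr v ∈ C
  · obtain ⟨hr1, hr2⟩ := hcross hcr.1 hcr.2
    have hs1 : IsConn c (Sum.inl ⁻¹' C) s := by
      rcases hs with hs | hs
      · exact hs
      · obtain ⟨x, hx⟩ := hcr.1
        have : x ∈ (Sum.inl ⁻¹' C : Set c.V) := hx
        rw [hs] at this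
        exact absurd this (Set.notMem_empty _)
    have hs2 : IsConn p (Sum.inr ⁻¹' C) s' := by
      rcases hs' with hs | hs
      · exact hs
      · obtain ⟨x, hx⟩ := hcr.2
        have : x ∈ (Sum.inr ⁻¹' C : Set p.V) := hx
        rw [hs] at this
        exact absurd this (Set.notMem_empty _)
    rcases h with ⟨h0, hpos⟩ | ⟨h0, hpos⟩
    · by_cases hz : Sum.elim q r u = 0
      · rw [hz] at he
        rcases u with u | u
        · rcases v with v | v
          · obtain ⟨w, _, hlt⟩ := hq _ _ hs1 u hu v hv (fun e => hne (by rw [e])) (hz.trans he)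
            rw [show q u = 0 from hz] at hlt
            exact absurd hlt (Nat.not_lt_zero _)
          · exact absurd he.symm (hpos v).ne'
        · exact absurd hz (hpos u).ne'
      · exact ⟨Sum.inl c.root, hr1, by rw [Sum.elim_inl, h0]; exact Nat.pos_of_ne_zero hz⟩
    · by_cases hz : Sum.elim q r u = 0
      · rw [hz] at he
        rcases u with u | u
        · exact absurd hz (hpos u).ne'
        · rcases v with v | v
          · exact absurd he.symm (hpos v).ne'
          · obtain ⟨w, _, hlt⟩ := hr _ _ hs2 u hu v hv (fun e => hne (by rw [e])) (hz.trans he)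
            rw [show r u = 0 from hz] at hlt
            exact absurd hlt (Nat.not_lt_zero _)
      · exact ⟨Sum.inr p.root, hr2, by rw [Sum.elim_inr, h0]; exact Nat.pos_of_ne_zero hz⟩
  · rcases u with u | u
    · rcases v with v | v
      · rcases hs with hs | hs
        · obtain ⟨w, hw, hlt⟩ := hq _ _ hs u hu v hv (fun e => hne (by rw [e])) he
          exact ⟨Sum.inl w, hw, hlt⟩
        · have : u ∈ (Sum.inl ⁻¹' C : Set c.V) := hu
          rw [hs] at this
          exact absurd this (Set.notMem_empty _)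
      · exact absurd ⟨⟨u, hu⟩, ⟨v, hv⟩⟩ hcr
    · rcases v with v | v
      · exact absurd ⟨⟨v, hv⟩, ⟨u, hu⟩⟩ hcr
      · rcases hs' with hs | hs
        · obtain ⟨w, hw, hlt⟩ := hr _ _ hs u hu v hv (fun e => hne (by rw [e])) he
          exact ⟨Sum.inr w, hw, hlt⟩
        · have : u ∈ (Sum.inr ⁻¹' C : Set p.V) := hu
          rw [hs] at this
          exact absurd this (Set.notMem_empty _)

lemma Rank.add_one {T : RT L} {p : T.V → ℕ} (h : Rank T p) : Rank T (fun v => p v + 1) := by
  intro C t hC u hu v hv hne he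
  obtain ⟨w, hw, hlt⟩ := h C t hC u hu v hv hne (by simpa using he)
  exact ⟨w, hw, by simpa using hlt⟩

lemma rule1 {c p : RT L} {w : ℕ} {l : L} {a : ℕ} (hp : Rkc p w l (a + 1)) (hc : Rk c w l a) :
    Rkc (graft c p) w l (a + 1) := by
  obtain ⟨r, r1, r2, r3, r4⟩ := hp
  obtain ⟨q, q1, q2, q3⟩ := hc
  refine ⟨Sum.elim (fun v => q v + 1) r, rank_graft q1.add_one r1 (Or.inr ⟨r4, fun v => by simp⟩),
    ?_, ?_, r4⟩
  · rintro (v | v) hv
    · have := q2 v hv
      simp only [Sum.elim_inl]; omega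
    · exact r2 v hv
  · rintro (v | v)
    · have := q3 v
      simp only [Sum.elim_inl]; omega
    · exact r3 v

lemma rule2 {c p : RT L} {w : ℕ} {l : L} {a : ℕ} (hc : Rkc c w l (a + 1)) (hp : Rk p w l a) :
    Rk (graft c p) w l (a + 1) := by
  obtain ⟨r, r1, r2, r3, r4⟩ := hc
  obtain ⟨q, q1, q2, q3⟩ := hp
  refine ⟨Sum.elim r (fun v => q v + 1), rank_graft r1 q1.add_one (Or.inl ⟨r4, fun v => by simp⟩),
    ?_, ?_⟩
  · rintro (v | v) hv
    · exact r2 v hv
    · have := q2 v hv
      simp only [Sum.elim_inr]; omega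
  · rintro (v | v)
    · exact r3 v
    · have := q3 v
      simp only [Sum.elim_inr]; omega

lemma rule3 {c p : RT L} {w : ℕ} {l : L} {a : ℕ} (hc : Rk c w l a) (hp : Rk p w l a) :
    Rkc (graft c p) w l (a + 1) := rule1 hp.shift hc

/-! ### gains -/

/-- `T` has the gain `g` (for the label `l`, with respect to `h`) -/
def GU (T : RT L) (w : ℕ) (l : L) (h g : ℕ) : Prop := ∃ a, a + g = h ∧ Rk T w l a

/-- `T` has the gain `g`, and the root is the centre -/
def GC (T : RT L) (w : ℕ) (l : L) (h g : ℕ) : Prop := ∃ a, a + g = h ∧ Rkc T w l a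

variable {w : ℕ} {l : L} {h g : ℕ}

lemma GC.gu {T : RT L} (H : GC T w l h g) : GU T w l h g := by
  obtain ⟨a, h1, h2⟩ := H
  exact ⟨a, h1, h2.rk⟩

lemma GU.down {T : RT L} (H : GU T w l h (g + 1)) : GU T w l h g := by
  obtain ⟨a, h1, h2⟩ := H
  exact ⟨a + 1, by omega, h2.mono (by omega)⟩

lemma GU.down' {T : RT L} {g' : ℕ} (H : GU T w l h g) (hg : g' ≤ g) : GU T w l h g' := by
  obtain ⟨a, h1, h2⟩ := H
  exact ⟨a + (g - g'), by omega, h2.mono (by omega)⟩

lemma GU.gc {T : RT L} (H : GU T w l h (g + 1)) : GC T w l h g := by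
  obtain ⟨a, h1, h2⟩ := H
  exact ⟨a + 1, by omega, h2.shift⟩

lemma GC.alpha {c p : RT L} (hp : GC p w l h g) (hc : GU c w l h (g + 1)) :
    GC (graft c p) w l (h + 1) (g + 1) := by
  obtain ⟨a, h1, h2⟩ := hp
  obtain ⟨b, h3, h4⟩ := hc
  have hab : a = b + 1 := by omega
  subst hab
  exact ⟨b + 1, by omega, rule1 h2 h4⟩

lemma GC.beta {c p : RT L} (hc : GC c w l h g) (hp : GU p w l h (g + 1)) :
    GU (graft c p) w l (h + 1) (g + 1) := by
  obtain ⟨a, h1, h2⟩ := hc
  obtain ⟨b, h3, h4⟩ := hp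
  have hab : a = b + 1 := by omega
  subst hab
  exact ⟨b + 1, by omega, rule2 h2 h4⟩

lemma GU.gamma {c p : RT L} (hc : GU c w l h g) (hp : GU p w l h g) :
    GC (graft c p) w l (h + 1) g := by
  obtain ⟨a, h1, h2⟩ := hc
  obtain ⟨b, h3, h4⟩ := hp
  have hab : b = a := by omega
  subst hab
  exact ⟨b + 1, by omega, rule3 h2 h4⟩

lemma rank_leaf (o : Option L) (m : ℕ) : Rank (leaf o) (fun _ => m) := by
  intro C t _ u _ v _ hne
  exact absurd (Subsingleton.elim (α := Unit) u v) hne

lemma GC.leaf {o : Option L} : GC (leaf o) w l 1 0 :=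
  ⟨1, rfl, fun _ => 0, rank_leaf o 0, fun _ _ => Nat.one_pos, fun _ => Nat.lt_of_lt_of_le Nat.one_pos (Nat.le_add_right 1 w), rfl⟩

/-- the unlabelled tree -/
lemma exists_filler (w n : ℕ) : ∃ T : RT L, Bis T n ∧ ∀ l, GC T w l (n + 1) 0 := by
  induction n with
  | zero => exact ⟨leaf none, Bis.leaf _, fun l => GC.leaf⟩
  | succ n ih =>
    obtain ⟨T, h1, h2⟩ := ih
    exact ⟨graft T T, h1.graft h1, fun l => (h2 l).gu.gamma (h2 l).gu⟩

/-- the tree with the only label `l` -/
lemma exists_mono (l : L) (n : ℕ) : ∃ T : RT L, Bis T n ∧ (∀ v, T.lab v = some l) ∧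
    (∃ p, Rank T p ∧ ∀ v, p v < n + 1) ∧ ∀ w, ∀ l', l' ≠ l → GC T w l' (n + 1) 0 := by
  induction n with
  | zero =>
    exact ⟨leaf (some l), Bis.leaf _, fun _ => rfl, ⟨fun _ => 0, rank_leaf _ 0, fun _ => by simp⟩,
      fun w l' _ => GC.leaf⟩
  | succ n ih =>
    obtain ⟨T, h1, h2, ⟨p, h3, h4⟩, h5⟩ := ih
    refine ⟨graft T T, h1.graft h1, ?_, ?_, fun w l' hl' => (h5 w l' hl').gu.gamma (h5 w l' hl').gu⟩
    · rintro (v | v)
      · exact h2 v
      · exact h2 v
    · classical
      refine ⟨Sum.elim (fun v => p v + 1) (fun v => if v = T.root then 0 else p v + 1),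
        rank_graft h3.add_one h3.shift (Or.inr ⟨if_pos rfl, fun v => by simp⟩), ?_⟩
      rintro (v | v)
      · have := h4 v
        simp only [Sum.elim_inl]; omega
      · have := h4 v
        simp only [Sum.elim_inr]
        split_ifs <;> omega

/-- the trees `X a b` -/
lemma exists_X (w : ℕ) (l : L) : ∀ b, b ≤ w → ∀ a n, a + b = n + 1 → ∃ T : RT L, Bis T n ∧
    GU T w l (n + 1) b ∧ (1 ≤ a → GC T w l (n + 1) b) ∧ ∀ l', l' ≠ l → GC T w l' (n + 1) 0 := by
  intro b
  induction b with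
  | zero =>
    intro _ a n han
    obtain ⟨T, h1, h2⟩ := exists_filler (L := L) w n
    exact ⟨T, h1, (h2 l).gu, fun _ => h2 l, fun l' _ => h2 l'⟩
  | succ b ihb =>
    intro hb a
    induction a with
    | zero =>
      intro n hn
      obtain ⟨T, h1, h2, ⟨p, h3, h4⟩, h5⟩ := exists_mono l n
      refine ⟨T, h1, ⟨0, by omega, p, h3, fun v hv => absurd (h2 v) hv, fun v => ?_⟩,
        fun h => absurd h (by omega), fun l' hl' => h5 w l' hl'⟩
      have := h4 v
      omega
    | succ a iha =>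
      intro n hn
      obtain ⟨m, rfl⟩ : ∃ m, n = m + 1 := ⟨n - 1, by omega⟩
      obtain ⟨c, c1, c2, _, c4⟩ := iha m (by omega)
      obtain ⟨p, p1, _, p3, p4⟩ := ihb (by omega) (a + 1) m (by omega)
      have hgc : GC (graft c p) w l (m + 1 + 1) (b + 1) := (p3 (by omega)).alpha c2
      exact ⟨graft c p, c1.graft p1, hgc.gu, fun _ => hgc,
        fun l' hl' => (c4 l' hl').gu.gamma (p4 l' hl').gu⟩

/-- trees with the gain `k` for all labels -/
def Good (L : Type) (w k n : ℕ) : Prop := ∃ T : RT L, Bis T n ∧ ∀ l, GC T w l (n + 1) k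

/-- the trees `D i`: gain `k` for `l`, gain `i` for the other labels -/
lemma exists_D (w k : ℕ) (hk : k + 1 ≤ w) (n₀ : ℕ) (hg : ∀ n, n₀ ≤ n → Good L w k n) (l : L) :
    ∀ i, i ≤ k → ∀ n, n₀ + k + i ≤ n → ∃ T : RT L, Bis T n ∧ GU T w l (n + 1) (k + 1) ∧
      ∀ l', l' ≠ l → GC T w l' (n + 1) i := by
  intro i
  induction i with
  | zero =>
    intro _ n hn
    obtain ⟨T, h1, h2, _, h4⟩ := exists_X w l (k + 1) hk (n - k) n (by omega)
    exact ⟨T, h1, h2, h4⟩
  | succ i ih =>
    intro hi n hn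
    obtain ⟨m, rfl⟩ : ∃ m, n = m + 1 := ⟨n - 1, by omega⟩
    obtain ⟨Z, z1, z2, z3⟩ := ih (by omega) m (by omega)
    obtain ⟨Y, y1, y2⟩ := hg m (by omega)
    refine ⟨graft Y Z, y1.graft z1, (y2 l).beta z2, fun l' hl' => ?_⟩
    exact (z3 l' hl').alpha ((y2 l').gu.down' hi)

/-- gain `k + 1` for the labels in `S`, gain `k` for all labels -/
lemma exists_J [DecidableEq L] (w k : ℕ) (hk : k + 1 ≤ w) (n₀ : ℕ)
    (hg : ∀ n, n₀ ≤ n → Good L w k n) (S : Finset L) :
    ∃ n₁, ∀ n, n₁ ≤ n → ∃ T : RT L, Bis T n ∧ (∀ l, GC T w l (n + 1) k) ∧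
      ∀ l ∈ S, GU T w l (n + 1) (k + 1) := by
  induction S using Finset.induction_on with
  | empty => exact ⟨n₀, fun n hn => by
      obtain ⟨T, h1, h2⟩ := hg n hn
      exact ⟨T, h1, h2, fun l hl => absurd hl (Finset.notMem_empty l)⟩⟩
  | insert l S hl ih =>
    obtain ⟨n₁, h⟩ := ih
    refine ⟨n₀ + n₁ + 2 * k + 1, fun n hn => ?_⟩
    obtain ⟨m, rfl⟩ : ∃ m, n = m + 1 := ⟨n - 1, by omega⟩
    obtain ⟨J, j1, j2, j3⟩ := h m (by omega)
    obtain ⟨N, n1, n2, n3⟩ := exists_D w k hk n₀ hg l k le_rfl m (by omega)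
    have n4 : ∀ l', GC N w l' (m + 1) k := fun l' => by
      by_cases hl' : l' = l
      · subst hl'; exact n2.gc
      · exact n3 l' hl'
    refine ⟨graft N J, n1.graft j1, fun l' => (n4 l').gu.gamma (j2 l').gu, fun l' hl' => ?_⟩
    rw [Finset.mem_insert] at hl'
    rcases hl' with rfl | hl'
    · exact ((j2 l').alpha n2).gu
    · exact (n4 l').beta (j3 l' hl')

theorem exists_good [Finite L] (w : ℕ) : ∀ k, k ≤ w → ∃ n₀, ∀ n, n₀ ≤ n → Good L w k n := by
  classical
  have := Fintype.ofFinite L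
  intro k
  induction k with
  | zero => exact fun _ => ⟨0, fun n _ => exists_filler w n⟩
  | succ k ih =>
    intro hk
    obtain ⟨n₀, hg⟩ := ih (by omega)
    obtain ⟨n₁, h⟩ := exists_J w k hk n₀ hg (Finset.univ : Finset L)
    refine ⟨n₁ + 1, fun n hn => ?_⟩
    obtain ⟨m, rfl⟩ : ∃ m, n = m + 1 := ⟨n - 1, by omega⟩
    obtain ⟨J, j1, _, j3⟩ := h m (by omega)
    exact ⟨graft J J, j1.graft j1, fun l =>
      (j3 l (Finset.mem_univ l)).gamma (j3 l (Finset.mem_univ l))⟩

/-- **The trees.** -/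
theorem exists_tree (L : Type) [Finite L] (w k : ℕ) (hk : k ≤ w) :
    ∃ (T : RT L) (n a : ℕ), Bis T n ∧ a + k = n + 1 ∧ ∀ l, Rk T w l a := by
  obtain ⟨n₀, h⟩ := exists_good (L := L) w k hk
  obtain ⟨T, h1, h2⟩ := h (n₀ + k) (by omega)
  refine ⟨T, n₀ + k, n₀ + 1, h1, by omega, fun l => ?_⟩
  obtain ⟨a, h3, h4⟩ := h2 l
  have : a = n₀ + 1 := by omega
  subst this
  exact h4.rk

end RT

end Pool.Agent.K7.H71.MaxSub
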