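import Mathlib
import Pool.Agent.K7.H71.MaxSub.Trees

set_option autoImplicit false

/-!
# The groups of the trees

The group `Q T` of a rooted tree `T` is generated by controlled inversions: for every vertex `v`, the
generator changes the bit `v` if all the bits at the children of `v` are `true`. For every connected set
`C` with top vertex `t` it contains the permutation `gC T C t`, which changes the bit `t` if all the
bits at the vertices below `C` are `true`, and the commutator of `gC T C t` and `gC T C' t'` is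
`gC T (C ∪ C') t'` if `t` is a child of a vertex in `C'`, `t ∉ C'`.
-/

namespace Pool.Agent.K7.H71.MaxSub

open RT Equiv
open scoped commutatorElement

section gate

variable {V : Type}

open Classical in
/-- are all bits in `S` true? -/
noncomputable def ctl (S : Set V) (z : V → Bool) : Bool := decide (∀ s ∈ S, z s = true)

open Classical in
/-- the controlled inversion, as a function -/
noncomputable def gf (t : V) (S : Set V) (z : V → Bool) : V → Bool :=
  Function.update z t (xor (z t) (ctl S z))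

open Classical in
lemma ctl_update {S : Set V} {t : V} (h : t ∉ S) (z : V → Bool) (b : Bool) :
    ctl S (Function.update z t b) = ctl S z := by
  unfold ctl
  congr 1
  apply propext
  refine forall_congr' fun s => forall_congr' fun hs => ?_
  have hne : s ≠ t := by rintro rfl; exact h hs
  rw [Function.update_of_ne hne]

open Classical in
lemma ctl_update_mem {S : Set V} {t : V} (h : t ∈ S) (z : V → Bool) (b : Bool) :
    ctl S (Function.update z t b) = (b && ctl (S \ {t}) z) := by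
  rw [Bool.eq_iff_iff]
  simp only [ctl, Bool.and_eq_true, decide_eq_true_eq]
  constructor
  · intro H
    refine ⟨?_, fun s hs => ?_⟩
    · have := H t h
      rwa [Function.update_self] at this
    · have := H s hs.1
      rwa [Function.update_of_ne hs.2] at this
  · rintro ⟨hb, H⟩ s hs
    by_cases e : s = t
    · subst e; rwa [Function.update_self]
    · rw [Function.update_of_ne e]
      exact H s ⟨hs, e⟩

lemma ctl_mem {S : Set V} {t : V} (h : t ∈ S) (z : V → Bool) :
    ctl S z = (z t && ctl (S \ {t}) z) := by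
  classical
  have := ctl_update_mem h z (z t)
  rwa [Function.update_eq_self] at this

lemma ctl_union (S S' : Set V) (z : V → Bool) : ctl (S ∪ S') z = (ctl S z && ctl S' z) := by
  rw [Bool.eq_iff_iff]
  simp only [ctl, Bool.and_eq_true, decide_eq_true_eq]
  constructor
  · intro H
    exact ⟨fun s hs => H s (Or.inl hs), fun s hs => H s (Or.inr hs)⟩
  · rintro ⟨H1, H2⟩ s (hs | hs)
    · exact H1 s hs
    · exact H2 s hs

lemma gf_gf {t : V} {S : Set V} (h : t ∉ S) (z : V → Bool) : gf t S (gf t S z) = z := by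
  classical
  unfold gf
  rw [ctl_update h, Function.update_self, Function.update_idem, Bool.xor_assoc, Bool.xor_self,
    Bool.xor_false, Function.update_eq_self]

open Classical in
/-- the controlled inversion -/
noncomputable def gate (t : V) (S : Set V) : Perm (V → Bool) :=
  if h : t ∉ S then ⟨gf t S, gf t S, gf_gf h, gf_gf h⟩ else 1

lemma gate_apply {t : V} {S : Set V} (h : t ∉ S) (z : V → Bool) : gate t S z = gf t S z := by
  unfold gate
  rw [dif_pos h]
  rfl

lemma gate_mul_self (t : V) (S : Set V) : gate t S * gate t S = 1 := by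
  by_cases h : t ∉ S
  · ext1 z
    rw [Perm.mul_apply, gate_apply h, gate_apply h, gf_gf h]
    rfl
  · unfold gate
    rw [dif_neg h, one_mul]

lemma gate_inv (t : V) (S : Set V) : (gate t S)⁻¹ = gate t S :=
  inv_eq_of_mul_eq_one_left (gate_mul_self t S)

lemma gate_ne_one {t : V} {S : Set V} (h : t ∉ S) : gate t S ≠ 1 := by
  classical
  intro e
  have h1 := congrArg (fun f : Perm (V → Bool) => f (fun _ => true) t) e
  simp only [Perm.one_apply, gate_apply h, gf, Function.update_self] at h1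
  have h2 : ctl S (fun _ : V => true) = true := by simp [ctl]
  rw [h2] at h1
  exact absurd h1 (by decide)

lemma gate_commute {t t' : V} {S S' : Set V} (h1 : t ∉ S) (h2 : t' ∉ S') (h3 : t ∉ S')
    (h4 : t' ∉ S) : gate t S * gate t' S' = gate t' S' * gate t S := by
  classical
  ext1 z
  rw [Perm.mul_apply, Perm.mul_apply, gate_apply h1, gate_apply h2, gate_apply h2, gate_apply h1]
  unfold gf
  rw [ctl_update h4, ctl_update h3]
  by_cases e : t = t'
  · subst e
    simp only [Function.update_self, Function.update_idem]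
    congr 1
    rw [Bool.xor_assoc, Bool.xor_comm (ctl S' z), ← Bool.xor_assoc]
  · rw [Function.update_of_ne e, Function.update_of_ne (Ne.symm e), Function.update_comm e]

lemma gate_commutator {t t' : V} {S S' : Set V} (h1 : t ∉ S) (h2 : t' ∉ S') (h3 : t ∈ S')
    (h4 : t' ∉ S) : ⁅gate t S, gate t' S'⁆ = gate t' (S ∪ (S' \ {t})) := by
  classical
  have hne : t ≠ t' := by rintro rfl; exact h2 h3
  have h5 : t' ∉ S ∪ (S' \ {t}) := by
    rintro (h | h)
    · exact h4 h
    · exact h2 h.1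
  have h6 : t ∉ S' \ {t} := fun h => h.2 rfl
  have h7 : t ∉ S ∪ (S' \ {t}) := by
    rintro (h | h)
    · exact h1 h
    · exact h6 h
  have key : gate t S * gate t' S' = gate t' (S ∪ (S' \ {t})) * (gate t' S' * gate t S) := by
    ext1 z
    rw [Perm.mul_apply, Perm.mul_apply, Perm.mul_apply, gate_apply h1, gate_apply h2,
      gate_apply h5, gate_apply h2, gate_apply h1]
    unfold gf
    rw [ctl_update h4, ctl_update_mem h3, ctl_update h5, ctl_update h7, Function.update_of_ne hne,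
      Function.update_self, Function.update_idem, Function.update_of_ne hne.symm, ctl_union,
      Function.update_comm hne, ctl_mem h3 z]
    congr 1
    generalize z t' = x
    generalize z t = y
    generalize ctl S z = u
    generalize ctl (S' \ {t}) z = v
    cases x <;> cases y <;> cases u <;> cases v <;> rfl
  rw [commutatorElement_def, key]
  group

end gate

variable {L : Type}

/-- the vertices below `C` -/
def bd (T : RT L) (C : Set T.V) : Set T.V := {v | v ∉ C ∧ ∃ u ∈ C, T.par v = some u}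

/-- the permutation of a connected set -/
noncomputable def gC (T : RT L) (C : Set T.V) (t : T.V) : Perm (T.V → Bool) := gate t (bd T C)

lemma gC_mul_self (T : RT L) (C : Set T.V) (t : T.V) : gC T C t * gC T C t = 1 := gate_mul_self _ _

lemma gC_inv (T : RT L) (C : Set T.V) (t : T.V) : (gC T C t)⁻¹ = gC T C t := gate_inv _ _

lemma notMem_bd {T : RT L} {C : Set T.V} {t : T.V} (h : t ∈ C) : t ∉ bd T C := fun h' => h'.1 h

lemma isConn_singleton (T : RT L) (t : T.V) : IsConn T {t} t :=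
  ⟨rfl, fun _ hv hne => absurd hv hne⟩

section adj

variable {T : RT L} {C C' : Set T.V} {t t' : T.V}

lemma RT.IsConn.union (h : IsConn T C t) (h' : IsConn T C' t') (hb : t ∈ bd T C') :
    IsConn T (C ∪ C') t' := by
  refine ⟨Or.inr h'.1, ?_⟩
  intro v hv hne
  by_cases hvC : v ∈ C
  · by_cases e : v = t
    · subst e
      obtain ⟨u, hu, hp⟩ := hb.2
      exact ⟨u, Or.inr hu, hp⟩
    · obtain ⟨u, hu, hp⟩ := h.2 v hvC e
      exact ⟨u, Or.inl hu, hp⟩
  · rcases hv with hv | hv
    · exact absurd hv hvC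
    · obtain ⟨u, hu, hp⟩ := h'.2 v hv hne
      exact ⟨u, Or.inr hu, hp⟩

lemma ht_lt_of_bd (h' : IsConn T C' t') (hb : t ∈ bd T C') : T.ht t < T.ht t' := by
  obtain ⟨u, hu, hp⟩ := hb.2
  exact lt_of_lt_of_le (T.par_ht _ _ hp) (h'.ht_le hu)

lemma disj (h : IsConn T C t) (h' : IsConn T C' t') (hb : t ∈ bd T C') {v : T.V} (hv : v ∈ C) :
    v ∉ C' := by
  intro hv'
  obtain ⟨u, ⟨hu, hu'⟩, hm⟩ := exists_max T (C := C ∩ C') ⟨v, hv, hv'⟩
  have hne : u ≠ t := by rintro rfl; exact hb.1 hu'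
  have hne' : u ≠ t' := by
    rintro rfl
    have := h.ht_le hu
    have := ht_lt_of_bd h' hb
    omega
  obtain ⟨x, hx, hp⟩ := h.2 u hu hne
  obtain ⟨y, hy, hp'⟩ := h'.2 u hu' hne'
  rw [hp] at hp'
  obtain rfl := Option.some.inj hp'
  have h1 := T.par_ht _ _ hp
  have h2 := hm x ⟨hx, hy⟩
  omega

lemma notMem_bd' (h : IsConn T C t) (h' : IsConn T C' t') (hb : t ∈ bd T C') : t' ∉ bd T C := by
  intro hb'
  have := ht_lt_of_bd h' hb
  have := ht_lt_of_bd h hb'
  omega

lemma bd_union (h : IsConn T C t) (h' : IsConn T C' t') (hb : t ∈ bd T C') :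
    bd T (C ∪ C') = bd T C ∪ (bd T C' \ {t}) := by
  ext v
  constructor
  · rintro ⟨h1, u, hu | hu, hp⟩
    · exact Or.inl ⟨fun hv => h1 (Or.inl hv), u, hu, hp⟩
    · refine Or.inr ⟨⟨fun hv => h1 (Or.inr hv), u, hu, hp⟩, ?_⟩
      rintro rfl
      exact h1 (Or.inl h.1)
  · rintro (⟨h1, u, hu, hp⟩ | ⟨⟨h1, u, hu, hp⟩, hne⟩)
    · refine ⟨?_, u, Or.inl hu, hp⟩
      rintro (hv | hv)
      · exact h1 hv
      · have hne : v ≠ t' := by
          rintro rfl
          exact notMem_bd' h h' hb ⟨h1, u, hu, hp⟩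
        obtain ⟨x, hx, hp'⟩ := h'.2 v hv hne
        rw [hp] at hp'
        obtain rfl := Option.some.inj hp'
        exact disj h h' hb hu hx
    · refine ⟨?_, u, Or.inr hu, hp⟩
      rintro (hv | hv)
      · obtain ⟨x, hx, hp'⟩ := h.2 v hv hne
        rw [hp] at hp'
        obtain rfl := Option.some.inj hp'
        exact disj h h' hb hx hu
      · exact h1 hv

lemma gC_commutator (h : IsConn T C t) (h' : IsConn T C' t') (hb : t ∈ bd T C') :
    ⁅gC T C t, gC T C' t'⁆ = gC T (C ∪ C') t' := by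
  unfold gC
  rw [bd_union h h' hb]
  exact gate_commutator (notMem_bd h.1) (notMem_bd h'.1) hb (notMem_bd' h h' hb)

/-- the commutator of two elements `gC` -/
lemma gC_commutator' (h : IsConn T C t) (h' : IsConn T C' t') :
    ⁅gC T C t, gC T C' t'⁆ = 1 ∨
      (t ∈ bd T C' ∧ IsConn T (C ∪ C') t' ∧ ⁅gC T C t, gC T C' t'⁆ = gC T (C ∪ C') t') ∨
      (t' ∈ bd T C ∧ IsConn T (C' ∪ C) t ∧ ⁅gC T C t, gC T C' t'⁆ = gC T (C' ∪ C) t) := by
  by_cases hb : t ∈ bd T C'
  · exact Or.inr (Or.inl ⟨hb, h.union h' hb, gC_commutator h h' hb⟩)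
  · by_cases hb' : t' ∈ bd T C
    · refine Or.inr (Or.inr ⟨hb', h'.union h hb', ?_⟩)
      rw [← commutatorElement_inv, gC_commutator h' h hb', gC_inv]
    · left
      rw [commutatorElement_eq_one_iff_mul_comm]
      exact gate_commute (notMem_bd h.1) (notMem_bd h'.1) hb hb'

end adj

lemma RT.Lev.isConn {T : RT L} {n : ℕ} {C : Set T.V} {t : T.V}
    (h : Lev T n C t) : IsConn T C t := by
  induction h with
  | zero t => exact isConn_singleton T t
  | succ n C C' t t' _ _ h3 h4 ih1 ih2 => exact ih1.union ih2 ⟨h3, h4⟩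

/-- the group of the tree -/
noncomputable def QT (T : RT L) : Subgroup (Perm (T.V → Bool)) :=
  Subgroup.closure (Set.range fun v => gC T {v} v)

/-- the chain of subgroups of a ranking -/
noncomputable def GG (T : RT L) (p : T.V → ℕ) (i : ℕ) : Subgroup (Perm (T.V → Bool)) :=
  Subgroup.closure {x | ∃ C t, IsConn T C t ∧ (∃ u ∈ C, p u < i) ∧ x = gC T C t}

lemma conj_mem_GG {T : RT L} {p : T.V → ℕ} {i : ℕ} {C : Set T.V} {t : T.V} (h : IsConn T C t)
    {x : Perm (T.V → Bool)} (hx : x ∈ GG T p i) : gC T C t * x * (gC T C t)⁻¹ ∈ GG T p i := by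
  unfold GG at hx
  induction hx using Subgroup.closure_induction with
  | mem x hx =>
    obtain ⟨C', t', h', ⟨u, hu, hp⟩, rfl⟩ := hx
    have e : gC T C t * gC T C' t' * (gC T C t)⁻¹ = ⁅gC T C t, gC T C' t'⁆ * gC T C' t' := by
      rw [commutatorElement_def]; group
    rw [e]
    refine Subgroup.mul_mem _ ?_ (Subgroup.subset_closure ⟨C', t', h', ⟨u, hu, hp⟩, rfl⟩)
    rcases gC_commutator' h h' with e | ⟨_, h2, e⟩ | ⟨_, h2, e⟩
    · rw [e]; exact Subgroup.one_mem _
    · rw [e]; exact Subgroup.subset_closure ⟨_, _, h2, ⟨u, Or.inr hu, hp⟩, rfl⟩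
    · rw [e]; exact Subgroup.subset_closure ⟨_, _, h2, ⟨u, Or.inl hu, hp⟩, rfl⟩
  | one => simp
  | mul x y _ _ hx hy =>
    have e : gC T C t * (x * y) * (gC T C t)⁻¹ =
        (gC T C t * x * (gC T C t)⁻¹) * (gC T C t * y * (gC T C t)⁻¹) := by group
    rw [e]
    exact Subgroup.mul_mem _ hx hy
  | inv x _ hx =>
    have e : gC T C t * x⁻¹ * (gC T C t)⁻¹ = (gC T C t * x * (gC T C t)⁻¹)⁻¹ := by group
    rw [e]
    exact Subgroup.inv_mem _ hx

lemma conj_mem_of_closure {Γ : Type} [Group Γ] {X : Set Γ} {N : Subgroup Γ}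
    (h : ∀ y ∈ X, ∀ x ∈ N, y * x * y⁻¹ ∈ N) (h' : ∀ y ∈ X, y⁻¹ = y) {y : Γ}
    (hy : y ∈ Subgroup.closure X) : ∀ x ∈ N, y * x * y⁻¹ ∈ N := by
  induction hy using Subgroup.closure_induction_left with
  | one => intro x hx; simpa using hx
  | mul_left a ha y _ ih =>
    intro x hx
    have := h a ha _ (ih x hx)
    have e : a * y * x * (a * y)⁻¹ = a * (y * x * y⁻¹) * a⁻¹ := by group
    rw [e]; exact this
  | inv_mul_cancel a ha y _ ih =>
    intro x hx
    rw [h' a ha]
    have := h a ha _ (ih x hx)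
    have e : a * y * x * (a * y)⁻¹ = a * (y * x * y⁻¹) * a⁻¹ := by group
    rw [e]; exact this

/-- the chain is normalized by `gC` -/
lemma GG_conj {T : RT L} {p : T.V → ℕ} {i j : ℕ} {y : Perm (T.V → Bool)} (hy : y ∈ GG T p j) :
    ∀ x ∈ GG T p i, y * x * y⁻¹ ∈ GG T p i := by
  refine conj_mem_of_closure (X := {x | ∃ C t, IsConn T C t ∧ (∃ u ∈ C, p u < j) ∧ x = gC T C t})
    ?_ ?_ hy
  · rintro _ ⟨C, t, h, _, rfl⟩ x hx
    exact conj_mem_GG h hx
  · rintro _ ⟨C, t, h, _, rfl⟩
    exact gC_inv _ _ _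

lemma commutator_closure_le {Γ : Type} [Group Γ] {X : Set Γ} {N : Subgroup Γ}
    (h : ∀ y ∈ Subgroup.closure X, ∀ x ∈ N, y * x * y⁻¹ ∈ N) (hc : ∀ x ∈ X, ∀ y ∈ X, ⁅x, y⁆ ∈ N) :
    ⁅Subgroup.closure X, Subgroup.closure X⁆ ≤ N := by
  have h1 : ∀ x ∈ X, ∀ y ∈ Subgroup.closure X, ⁅x, y⁆ ∈ N := by
    intro x hx y hy
    have hx' := Subgroup.subset_closure (k := X) hx
    induction hy using Subgroup.closure_induction with
    | mem y hy => exact hc x hx y hy
    | one => simp
    | mul y z hy hz ihy ihz =>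
      have e : ⁅x, y * z⁆ = ⁅x, y⁆ * (y * ⁅x, z⁆ * y⁻¹) := by
        simp only [commutatorElement_def]; group
      rw [e]
      exact N.mul_mem ihy (h y hy _ ihz)
    | inv y hy ihy =>
      have e : ⁅x, y⁻¹⁆ = y⁻¹ * ⁅x, y⁆⁻¹ * (y⁻¹)⁻¹ := by
        simp only [commutatorElement_def]; group
      rw [e]
      exact h _ (Subgroup.inv_mem _ hy) _ (N.inv_mem ihy)
  rw [Subgroup.commutator_le]
  intro x hx y hy
  induction hx using Subgroup.closure_induction with
  | mem x hx => exact h1 x hx y hy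
  | one => simp
  | mul x z hx hz ihx ihz =>
    have e : ⁅x * z, y⁆ = (x * ⁅z, y⁆ * x⁻¹) * ⁅x, y⁆ := by
      simp only [commutatorElement_def]; group
    rw [e]
    exact N.mul_mem (h x hx _ ihz) ihx
  | inv x hx ihx =>
    have e : ⁅x⁻¹, y⁆ = x⁻¹ * ⁅x, y⁆⁻¹ * (x⁻¹)⁻¹ := by
      simp only [commutatorElement_def]; group
    rw [e]
    exact h _ (Subgroup.inv_mem _ hx) _ (N.inv_mem ihx)

lemma GG_comm {T : RT L} {p : T.V → ℕ} (hp : Rank T p) (i : ℕ) :
    ⁅GG T p (i + 1), GG T p (i + 1)⁆ ≤ GG T p i := by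
  refine commutator_closure_le (fun y hy x hx => GG_conj (j := i + 1) hy x hx) ?_
  rintro _ ⟨C, t, h, ⟨u, hu, hpu⟩, rfl⟩ _ ⟨C', t', h', ⟨u', hu', hpu'⟩, rfl⟩
  have key : ∀ (D : Set T.V) (s : T.V), IsConn T D s → u ∈ D → u' ∈ D → u ≠ u' →
      gC T D s ∈ GG T p i := by
    intro D s hD h1 h2 hne
    apply Subgroup.subset_closure
    refine ⟨D, s, hD, ?_, rfl⟩
    by_cases e : p u = p u'
    · obtain ⟨w, hw, hlt⟩ := hp D s hD u h1 u' h2 hne e
      exact ⟨w, hw, by omega⟩
    · rcases Nat.lt_or_gt_of_ne e with e | e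
      · exact ⟨u, h1, by omega⟩
      · exact ⟨u', h2, by omega⟩
  rcases gC_commutator' h h' with e | ⟨hb, h2, e⟩ | ⟨hb, h2, e⟩
  · rw [e]; exact Subgroup.one_mem _
  · rw [e]
    exact key _ _ h2 (Or.inl hu) (Or.inr hu') (fun e => disj h h' hb hu (e ▸ hu'))
  · rw [e]
    exact key _ _ h2 (Or.inr hu) (Or.inl hu') (fun e => disj h' h hb hu' (e ▸ hu))

lemma GG_zero (T : RT L) (p : T.V → ℕ) : GG T p 0 = ⊥ := by
  unfold GG
  rw [Subgroup.closure_eq_bot_iff]
  rintro _ ⟨C, t, _, ⟨u, _, h⟩, _⟩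
  exact absurd h (Nat.not_lt_zero _)

lemma GG_mono (T : RT L) (p : T.V → ℕ) : Monotone (GG T p) := by
  intro i j hij
  apply Subgroup.closure_mono
  rintro _ ⟨C, t, h, ⟨u, hu, hp⟩, e⟩
  exact ⟨C, t, h, ⟨u, hu, lt_of_lt_of_le hp hij⟩, e⟩

lemma gC_mem_GG {T : RT L} {p : T.V → ℕ} {i : ℕ} {v : T.V} (h : p v < i) :
    gC T {v} v ∈ GG T p i :=
  Subgroup.subset_closure ⟨{v}, v, isConn_singleton T v, ⟨v, rfl, h⟩, rfl⟩

lemma QT_le_GG {T : RT L} {p : T.V → ℕ} {i : ℕ} (h : ∀ v, p v < i) : QT T ≤ GG T p i := by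
  unfold QT
  rw [Subgroup.closure_le]
  rintro _ ⟨v, rfl⟩
  exact gC_mem_GG (h v)

lemma QT_conj {T : RT L} {p : T.V → ℕ} {i : ℕ} {y : Perm (T.V → Bool)} (hy : y ∈ QT T) :
    ∀ x ∈ GG T p i, y * x * y⁻¹ ∈ GG T p i := by
  refine conj_mem_of_closure (X := Set.range fun v => gC T {v} v) ?_ ?_ hy
  · rintro _ ⟨v, rfl⟩ x hx
    exact conj_mem_GG (isConn_singleton T v) hx
  · rintro _ ⟨v, rfl⟩
    exact gC_inv _ _ _

lemma sq_mem_GG {T : RT L} {p : T.V → ℕ} (hp : Rank T p) {i : ℕ} {x : Perm (T.V → Bool)}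
    (hx : x ∈ GG T p (i + 1)) : x * x ∈ GG T p i := by
  have hx' := hx
  unfold GG at hx
  induction hx using Subgroup.closure_induction with
  | mem x hx =>
    obtain ⟨C, t, _, _, rfl⟩ := hx
    rw [gC_mul_self]; exact Subgroup.one_mem _
  | one => simp
  | mul x y hx hy ihx ihy =>
    have hx1 : x ∈ GG T p (i + 1) := hx
    have hy1 : y ∈ GG T p (i + 1) := hy
    have e : x * y * (x * y) = (x * ⁅y, x⁆ * x⁻¹) * (x * x) * (y * y) := by
      simp only [commutatorElement_def]; group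
    rw [e]
    refine Subgroup.mul_mem _ (Subgroup.mul_mem _ (GG_conj hx1 _ ?_) (ihx hx1)) (ihy hy1)
    exact GG_comm hp i (Subgroup.commutator_mem_commutator hy1 hx1)
  | inv x hx ihx =>
    have hx1 : x ∈ GG T p (i + 1) := hx
    rw [← mul_inv_rev]
    exact Subgroup.inv_mem _ (ihx hx1)

lemma pow_eq_one {T : RT L} {p : T.V → ℕ} (hp : Rank T p) :
    ∀ (i : ℕ) (x : Perm (T.V → Bool)), x ∈ GG T p i → x ^ 2 ^ i = 1 := by
  intro i
  induction i with
  | zero =>
    intro x hx
    rw [GG_zero, Subgroup.mem_bot] at hx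
    rw [hx, one_pow]
  | succ i ih =>
    intro x hx
    have := ih _ (sq_mem_GG hp hx)
    rw [← pow_two, ← pow_mul] at this
    rw [pow_succ, mul_comm]
    exact this

lemma lev_mem {T : RT L} {n : ℕ} {C : Set T.V} {t : T.V} (h : Lev T n C t) :
    ∃ x ∈ derivedSeries (QT T) n, (x : Perm (T.V → Bool)) = gC T C t := by
  induction h with
  | zero t =>
    exact ⟨⟨gC T {t} t, Subgroup.subset_closure ⟨t, rfl⟩⟩, by simp, rfl⟩
  | succ n C C' t t' h1 h2 h3 h4 ih1 ih2 =>
    obtain ⟨x, hx, ex⟩ := ih1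
    obtain ⟨y, hy, ey⟩ := ih2
    refine ⟨⁅x, y⁆, ?_, ?_⟩
    · rw [derivedSeries_succ]
      exact Subgroup.commutator_mem_commutator hx hy
    · have e : ((⁅x, y⁆ : QT T) : Perm (T.V → Bool)) = ⁅(x : Perm (T.V → Bool)), (y : Perm _)⁆ := by
        simp [commutatorElement_def]
      rw [e, ex, ey]
      exact gC_commutator h1.isConn h2.isConn ⟨h3, h4⟩

/-- The data provided by a tree. -/
structure QD (L : Type) (w k : ℕ) where
  /-- the group -/
  Q : Type
  [grp : Group Q]
  [fin : Finite Q]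
  /-- index set of the generators -/
  Λ : Type
  /-- the generators -/
  g : Λ → Q
  /-- the labels -/
  lab : Λ → Option L
  /-- the derived length of `Q` is larger than `n` -/
  n : ℕ
  /-- parameter of the chains -/
  a : ℕ
  /-- the chains -/
  ch : L → ℕ → Subgroup Q
  gen : Subgroup.closure (Set.range g) = ⊤
  inv : ∀ v, g v * g v = 1
  norm : ∀ l i, (ch l i).Normal
  ch_zero : ∀ l, ch l 0 = ⊥
  ch_top : ∀ l, ch l (a + w) = ⊤
  ch_comm : ∀ l i, ⁅ch l (i + 1), ch l (i + 1)⁆ ≤ ch l i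
  ch_mono : ∀ l, Monotone (ch l)
  ch_lab : ∀ l v, lab v ≠ some l → g v ∈ ch l a
  der : derivedSeries Q n ≠ ⊥
  eq : a + k = n + 1
  two : IsPGroup 2 Q

attribute [instance] QD.grp QD.fin

theorem nonempty_QD (L : Type) [Finite L] [Nonempty L] (w k : ℕ) (hk : k ≤ w) :
    Nonempty (QD L w k) := by
  obtain ⟨T, n, a, h1, h2, h3⟩ := exists_tree L w k hk
  choose p hp1 hp2 hp3 using h3
  refine ⟨{
    Q := QT T
    grp := inferInstance
    fin := inferInstance
    Λ := T.V
    g := fun v => ⟨gC T {v} v, Subgroup.subset_closure ⟨v, rfl⟩⟩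
    lab := T.lab
    n := n
    a := a
    ch := fun l i => (GG T (p l) i).subgroupOf (QT T)
    gen := ?_
    inv := fun v => Subtype.ext (gC_mul_self _ _ _)
    norm := ?_
    ch_zero := ?_
    ch_top := ?_
    ch_comm := ?_
    ch_mono := ?_
    ch_lab := ?_
    der := ?_
    eq := h2
    two := ?_ }⟩
  · have h := Subgroup.closure_closure_coe_preimage (k := Set.range fun v => gC T {v} v)
    have e : (Set.range fun v => (⟨gC T {v} v, Subgroup.subset_closure ⟨v, rfl⟩⟩ : QT T)) =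
        ((↑) : QT T → Perm (T.V → Bool)) ⁻¹' (Set.range fun v => gC T {v} v) := by
      ext x
      constructor
      · rintro ⟨v, rfl⟩; exact ⟨v, rfl⟩
      · rintro ⟨v, hv⟩; exact ⟨v, Subtype.ext hv⟩
    rw [e]
    exact h
  · intro l i
    refine ⟨fun x hx y => ?_⟩
    rw [Subgroup.mem_subgroupOf] at hx ⊢
    exact QT_conj y.2 _ hx
  · intro l
    rw [GG_zero]
    exact Subgroup.bot_subgroupOf _
  · intro l
    rw [Subgroup.subgroupOf_eq_top]
    exact QT_le_GG (hp3 l)
  · intro l i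
    rw [Subgroup.commutator_le]
    intro x hx y hy
    rw [Subgroup.mem_subgroupOf] at hx hy ⊢
    have e : ((⁅x, y⁆ : QT T) : Perm (T.V → Bool)) = ⁅(x : Perm (T.V → Bool)), (y : Perm _)⁆ := by
      simp [commutatorElement_def]
    rw [e]
    exact GG_comm (hp1 l) i (Subgroup.commutator_mem_commutator hx hy)
  · intro l i j hij x hx
    rw [Subgroup.mem_subgroupOf] at hx ⊢
    exact GG_mono T (p l) hij hx
  · intro l v hv
    rw [Subgroup.mem_subgroupOf]
    exact gC_mem_GG (hp2 l v hv)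
  · intro hbot
    obtain ⟨x, hx, ex⟩ := lev_mem h1
    rw [hbot, Subgroup.mem_bot] at hx
    rw [hx] at ex
    exact gate_ne_one (notMem_bd (Set.mem_univ _)) ex.symm
  · obtain ⟨l⟩ := ‹Nonempty L›
    intro x
    refine ⟨a + w, Subtype.ext ?_⟩
    have := pow_eq_one (hp1 l) (a + w) x.1 (QT_le_GG (hp3 l) x.2)
    simpa using this

end Pool.Agent.K7.H71.MaxSub
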