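import Mathlib
import Pool.Agent.K7.H71.MaxSub.Gates

set_option autoImplicit false

/-!
# The group `G`

Let `P` be a finite soluble group with a maximal subgroup `H`, and let `Q` be the group of a tree whose
labels are the elements of `P`. The group `G` consists of the elements of the wreath product of `Q`
and `P` whose base component `φ : P → Q` is constant modulo `ch l a` on the left cosets of
`l⁻¹ H l`, for all `l`. The maximal subgroup `M` of `G` is the preimage of `H`.
-/

namespace Pool.Agent.K7.H71.MaxSub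

open RT Equiv
open scoped commutatorElement

attribute [instance] QD.norm

/-- The data of the group `P`. -/
structure PD (w : ℕ) where
  /-- the group -/
  P : Type
  [grp : Group P]
  [fin : Finite P]
  /-- the maximal subgroup -/
  H : Subgroup P
  /-- a chain of subgroups -/
  D : ℕ → Subgroup P
  /-- an element of order three -/
  a : P
  D_zero : D 0 = H
  D_le : ∀ i, D i ≤ H
  D_comm : ∀ i, ⁅D i, D i⁆ ≤ D (i + 1)
  D_top : D w = ⊥
  coatom : IsCoatom H
  a_mem : a ∈ derivedSeries P w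
  a_cube : a ^ 3 = 1
  a_conj : ∀ x : P, x * a * x⁻¹ ∉ H
  solv : Group.IsSolvable P

attribute [instance] PD.grp PD.fin

section

variable {w k : ℕ} (Y : PD w) (X : QD Y.P w k)

/-- the homomorphism onto the factor group -/
abbrev qm (l : Y.P) : X.Q →* X.Q ⧸ X.ch l X.a := QuotientGroup.mk' (X.ch l X.a)

/-- the group `G` -/
def GX : Subgroup (RegularWreathProduct X.Q Y.P) where
  carrier := {g | ∀ l x : Y.P, ∀ h ∈ Y.H,
    qm Y X l (g.left (x * (l⁻¹ * h * l))) = qm Y X l (g.left x)}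
  one_mem' := by
    intro l x h _
    rfl
  mul_mem' := by
    intro g g' hg hg' l x h hh
    show qm Y X l (g.left (x * (l⁻¹ * h * l)) * g'.left (g.right⁻¹ * (x * (l⁻¹ * h * l)))) =
      qm Y X l (g.left x * g'.left (g.right⁻¹ * x))
    rw [map_mul, map_mul, hg l x h hh, ← mul_assoc, hg' l _ h hh]
  inv_mem' := by
    intro g hg l x h hh
    show qm Y X l (g.left (g.right * (x * (l⁻¹ * h * l))))⁻¹ = qm Y X l (g.left (g.right * x))⁻¹
    rw [map_inv, map_inv, ← mul_assoc, hg l _ h hh]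

lemma mem_GX {g : RegularWreathProduct X.Q Y.P} : g ∈ GX Y X ↔ ∀ l x : Y.P, ∀ h ∈ Y.H,
    qm Y X l (g.left (x * (l⁻¹ * h * l))) = qm Y X l (g.left x) := Iff.rfl

instance : Finite (GX Y X) := inferInstance

/-- the projection onto `P` -/
def rho : GX Y X →* Y.P := RegularWreathProduct.rightHom.comp (GX Y X).subtype

/-- the complement -/
def iota : Y.P →* GX Y X where
  toFun p := ⟨⟨1, p⟩, fun _ _ _ _ => rfl⟩
  map_one' := rfl
  map_mul' p p' := by
    apply Subtype.ext
    show (⟨1, p * p'⟩ : RegularWreathProduct X.Q Y.P) = ⟨1, p⟩ * ⟨1, p'⟩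
    ext1
    · funext x
      show (1 : X.Q) = 1 * 1
      rw [one_mul]
    · rfl

lemma rho_surjective : Function.Surjective (rho Y X) := fun p => ⟨iota Y X p, rfl⟩

/-- the maximal subgroup `M` -/
def MX : Subgroup (GX Y X) := Y.H.comap (rho Y X)

lemma MX_coatom : IsCoatom (MX Y X) :=
  Subgroup.isCoatom_comap_of_surjective (rho_surjective Y X) Y.coatom

lemma left_mul (g g' : GX Y X) (x : Y.P) :
    (g * g').1.left x = g.1.left x * g'.1.left (g.1.right⁻¹ * x) := rfl

/-- the invariance under `H` -/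
lemma left_inv_eq (g : GX Y X) {h : Y.P} (hh : h ∈ Y.H) (x : Y.P) :
    qm Y X x (g.1.left (h⁻¹ * x)) = qm Y X x (g.1.left x) := by
  have h1 := g.2 x x h⁻¹ (Y.H.inv_mem hh)
  have e : x * (x⁻¹ * h⁻¹ * x) = h⁻¹ * x := by group
  rwa [e] at h1

/-- the chain of subgroups of `M` -/
def RX (i : ℕ) : Subgroup (GX Y X) where
  carrier := {g | g.1.right ∈ Y.D (min i w) ∧ ∀ x, g.1.left x ∈ X.ch x (X.a + w - i)}
  one_mem' := ⟨Subgroup.one_mem _, fun x => Subgroup.one_mem _⟩
  mul_mem' := by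
    rintro g g' ⟨h1, h2⟩ ⟨h3, h4⟩
    refine ⟨Subgroup.mul_mem _ h1 h3, fun x => ?_⟩
    rw [left_mul]
    refine Subgroup.mul_mem _ (h2 x) ?_
    by_cases hi : i < w
    · have e := left_inv_eq Y X g' (Y.D_le _ h1) x
      have hle : X.ch x X.a ≤ X.ch x (X.a + w - i) := X.ch_mono x (by omega)
      have e2 : (g'.1.left x)⁻¹ * g'.1.left (g.1.right⁻¹ * x) ∈ X.ch x X.a := by
        rw [← QuotientGroup.eq]
        exact e.symm
      have := Subgroup.mul_mem _ (h4 x) (hle e2)
      rwa [mul_inv_cancel_left] at this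
    · have h5 : g.1.right = 1 := by
        rw [min_eq_right (by omega), Y.D_top, Subgroup.mem_bot] at h1
        exact h1
      rw [h5, inv_one, one_mul]
      exact h4 x
  inv_mem' := by
    rintro g ⟨h1, h2⟩
    refine ⟨Subgroup.inv_mem _ h1, fun x => ?_⟩
    show (g.1.left (g.1.right * x))⁻¹ ∈ _
    refine Subgroup.inv_mem _ ?_
    by_cases hi : i < w
    · have e := left_inv_eq Y X g (Y.H.inv_mem (Y.D_le _ h1)) x
      rw [inv_inv] at e
      have hle : X.ch x X.a ≤ X.ch x (X.a + w - i) := X.ch_mono x (by omega)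
      have e2 : (g.1.left x)⁻¹ * g.1.left (g.1.right * x) ∈ X.ch x X.a := by
        rw [← QuotientGroup.eq]
        exact e.symm
      have := Subgroup.mul_mem _ (h2 x) (hle e2)
      rwa [mul_inv_cancel_left] at this
    · have h5 : g.1.right = 1 := by
        rw [min_eq_right (by omega), Y.D_top, Subgroup.mem_bot] at h1
        exact h1
      rw [h5, one_mul]
      exact h2 x

lemma mem_RX {i : ℕ} {g : GX Y X} : g ∈ RX Y X i ↔
    g.1.right ∈ Y.D (min i w) ∧ ∀ x, g.1.left x ∈ X.ch x (X.a + w - i) := Iff.rfl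

lemma D_comm' (i : ℕ) : ⁅Y.D (min i w), Y.D (min i w)⁆ ≤ Y.D (min (i + 1) w) := by
  by_cases hi : i < w
  · rw [min_eq_left (by omega), min_eq_left (by omega)]
    exact Y.D_comm i
  · rw [min_eq_right (by omega), min_eq_right (by omega), Y.D_top, Subgroup.commutator_bot_left]

lemma RX_comm {i : ℕ} (hi : i < X.a + w) : ⁅RX Y X i, RX Y X i⁆ ≤ RX Y X (i + 1) := by
  obtain ⟨j, hj⟩ : ∃ j, X.a + w - i = j + 1 := ⟨X.a + w - i - 1, by omega⟩
  have hj' : X.a + w - (i + 1) = j := by omega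
  rw [Subgroup.commutator_le]
  intro g hg g' hg'
  refine ⟨?_, fun x => ?_⟩
  · have e : (⁅g, g'⁆ : GX Y X).1.right = ⁅g.1.right, g'.1.right⁆ := rfl
    rw [e]
    exact D_comm' Y i (Subgroup.commutator_mem_commutator hg.1 hg'.1)
  · rw [hj']
    -- evaluation at `x` modulo `ch x j`
    let e : RX Y X i →* X.Q ⧸ X.ch x j :=
      { toFun := fun y => QuotientGroup.mk' (X.ch x j) (y.1.1.left x)
        map_one' := map_one _
        map_mul' := by
          intro y z
          show QuotientGroup.mk' (X.ch x j) (y.1.1.left x * z.1.1.left (y.1.1.right⁻¹ * x)) = _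
          rw [map_mul]
          congr 1
          by_cases hiw : i < w
          · have h1 := left_inv_eq Y X z.1 (Y.D_le _ y.2.1) x
            have hle : X.ch x X.a ≤ X.ch x j := X.ch_mono x (by omega)
            have h2 := QuotientGroup.eq.1 h1
            exact QuotientGroup.eq.2 (hle h2)
          · have h5 : y.1.1.right = 1 := by
              have h1 := y.2.1
              rw [min_eq_right (by omega), Y.D_top, Subgroup.mem_bot] at h1
              exact h1
            rw [h5, inv_one, one_mul] }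
    have h1 : e ⟨⁅g, g'⁆, Subgroup.commutator_le_self _
        (Subgroup.commutator_mem_commutator hg hg')⟩ = 1 := by
      have h2 : (⟨⁅g, g'⁆, Subgroup.commutator_le_self _
        (Subgroup.commutator_mem_commutator hg hg')⟩ : RX Y X i) =
          ⁅(⟨g, hg⟩ : RX Y X i), (⟨g', hg'⟩ : RX Y X i)⁆ := rfl
      rw [h2, map_commutatorElement]
      show ⁅QuotientGroup.mk' (X.ch x j) (g.1.left x), QuotientGroup.mk' (X.ch x j) (g'.1.left x)⁆ = 1
      rw [← map_commutatorElement]
      apply (QuotientGroup.eq_one_iff _).2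
      have h3 := hg.2 x
      have h4 := hg'.2 x
      rw [hj] at h3 h4
      exact X.ch_comm x j (Subgroup.commutator_mem_commutator h3 h4)
    exact (QuotientGroup.eq_one_iff _).1 h1

lemma derivedSeries_MX (i : ℕ) (hi : i ≤ X.a + w) :
    ∀ g ∈ derivedSeries (MX Y X) i, (g : GX Y X) ∈ RX Y X i := by
  induction i with
  | zero =>
    intro g _
    refine ⟨?_, fun x => ?_⟩
    · rw [Nat.zero_min, Y.D_zero]
      exact g.2
    · rw [Nat.sub_zero, X.ch_top]
      trivial
  | succ i ih =>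
    have ih' := ih (by omega)
    have h : ⁅derivedSeries (MX Y X) i, derivedSeries (MX Y X) i⁆ ≤
        (RX Y X (i + 1)).comap (MX Y X).subtype := by
      rw [Subgroup.commutator_le]
      intro g hg g' hg'
      exact RX_comm Y X (by omega) (Subgroup.commutator_mem_commutator (ih' g hg) (ih' g' hg'))
    intro g hg
    rw [derivedSeries_succ] at hg
    exact h hg

theorem derivedSeries_MX_eq_bot : derivedSeries (MX Y X) (X.a + w) = ⊥ := by
  rw [eq_bot_iff]
  intro g hg
  have h := derivedSeries_MX Y X (X.a + w) le_rfl g hg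
  rw [mem_RX, min_eq_right (by omega), Y.D_top, Nat.sub_self] at h
  rw [Subgroup.mem_bot]
  apply Subtype.ext
  apply Subtype.ext
  ext1
  · funext x
    have := h.2 x
    rw [X.ch_zero, Subgroup.mem_bot] at this
    exact this
  · exact Subgroup.mem_bot.1 h.1

/-! ### the lower bound -/

/-- powers of an involution -/
def gam (v : X.Λ) (c : ZMod 2) : X.Q := if c = 0 then 1 else X.g v

lemma gam_zero (v : X.Λ) : gam Y X v 0 = 1 := if_pos rfl

lemma gam_one (v : X.Λ) : gam Y X v 1 = X.g v := if_neg one_ne_zero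

lemma gam_add (v : X.Λ) (c d : ZMod 2) : gam Y X v (c + d) = gam Y X v c * gam Y X v d := by
  have h : ∀ a : ZMod 2, a = 0 ∨ a = 1 := by decide
  have h11 : (1 + 1 : ZMod 2) = 0 := rfl
  rcases h c with rfl | rfl <;> rcases h d with rfl | rfl
  · simp [gam_zero]
  · simp [gam_zero]
  · simp [gam_zero]
  · rw [h11, gam_zero, gam_one, X.inv]

/-- `f` is compatible with the generator `v` -/
def Comp (v : X.Λ) (f : Y.P → ZMod 2) : Prop :=
  ∀ l, X.lab v = some l → ∀ x, ∀ h ∈ Y.H, f (x * (l⁻¹ * h * l)) = f x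

lemma psi_mem {v : X.Λ} {f : Y.P → ZMod 2} (hf : Comp Y X v f) :
    (⟨fun x => gam Y X v (f x), 1⟩ : RegularWreathProduct X.Q Y.P) ∈ GX Y X := by
  intro l x h hh
  show qm Y X l (gam Y X v (f (x * (l⁻¹ * h * l)))) = qm Y X l (gam Y X v (f x))
  by_cases hl : X.lab v = some l
  · rw [hf l hl x h hh]
  · have h1 : ∀ c, qm Y X l (gam Y X v c) = 1 := by
      intro c
      rw [QuotientGroup.mk'_apply, QuotientGroup.eq_one_iff]
      unfold gam
      split_ifs
      · exact Subgroup.one_mem _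
      · exact X.ch_lab l v hl
    rw [h1, h1]

lemma comp_add {v : X.Λ} {f f' : Y.P → ZMod 2} (hf : Comp Y X v f) (hf' : Comp Y X v f') :
    Comp Y X v (f + f') := by
  intro l hl x h hh
  rw [Pi.add_apply, Pi.add_apply, hf l hl x h hh, hf' l hl x h hh]

lemma comp_tr {v : X.Λ} {f : Y.P → ZMod 2} (hf : Comp Y X v f) (p : Y.P) :
    Comp Y X v (fun x => f (p * x)) := by
  intro l hl x h hh
  show f (p * (x * (l⁻¹ * h * l))) = f (p * x)
  rw [← mul_assoc, hf l hl _ h hh]

/-- `F v f i`: the function `f` with values in the group generated by `g v` lies in the derived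
series -/
def InD (v : X.Λ) (f : Y.P → ZMod 2) (i : ℕ) : Prop :=
  ∃ hf : Comp Y X v f, (⟨⟨fun x => gam Y X v (f x), 1⟩, psi_mem Y X hf⟩ : GX Y X) ∈
    derivedSeries (GX Y X) i

lemma InD.step {v : X.Λ} {f : Y.P → ZMod 2} {i : ℕ} (h : InD Y X v f i) {p : Y.P}
    (hp : iota Y X p ∈ derivedSeries (GX Y X) i) :
    InD Y X v (f + fun x => f (p⁻¹ * x)) (i + 1) := by
  obtain ⟨hf, hm⟩ := h
  refine ⟨comp_add Y X hf (comp_tr Y X hf _), ?_⟩
  rw [derivedSeries_succ]
  have h1 := Subgroup.commutator_mem_commutator hm hp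
  convert h1 using 1
  rw [eq_comm, commutatorElement_def, mul_inv_eq_iff_eq_mul, mul_inv_eq_iff_eq_mul]
  apply Subtype.ext
  ext1
  · funext x
    show gam Y X v (f x) * 1 = gam Y X v (f x + f (p⁻¹ * x)) * 1 *
      gam Y X v (f ((1 * p)⁻¹ * x))
    rw [one_mul, mul_one, mul_one, ← gam_add, add_assoc, CharTwo.add_self_eq_zero, add_zero]
  · show 1 * p = 1 * p * 1
    rw [mul_one]

open Classical in
/-- indicator functions of cosets -/
noncomputable def ee (l : Y.P) (j : ℕ) (x : Y.P) : ZMod 2 :=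
  if l * (Y.a ^ j)⁻¹ * x * l⁻¹ ∈ Y.H then 1 else 0

lemma ee_tr (l : Y.P) (j : ℕ) (x : Y.P) : ee Y l j (Y.a⁻¹ * x) = ee Y l (j + 1) x := by
  unfold ee
  have e : l * (Y.a ^ j)⁻¹ * (Y.a⁻¹ * x) * l⁻¹ = l * (Y.a ^ (j + 1))⁻¹ * x * l⁻¹ := by
    rw [pow_succ', mul_inv_rev]; group
  rw [e]

lemma ee_three (l : Y.P) (x : Y.P) : ee Y l 3 x = ee Y l 0 x := by
  unfold ee
  rw [Y.a_cube, pow_zero]

lemma comp_ee {v : X.Λ} {l : Y.P} (hl : ∀ l', X.lab v = some l' → l' = l) (j : ℕ) :
    Comp Y X v (ee Y l j) := by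
  intro l' hl' x h hh
  obtain rfl := hl l' hl'
  unfold ee
  have e : l' * (Y.a ^ j)⁻¹ * (x * (l'⁻¹ * h * l')) * l'⁻¹ = l' * (Y.a ^ j)⁻¹ * x * l'⁻¹ * h := by
    group
  rw [e, Subgroup.mul_mem_cancel_right _ hh]

lemma iota_a_mem {i : ℕ} (hi : i ≤ w) : iota Y X Y.a ∈ derivedSeries (GX Y X) i := by
  have h1 := derivedSeries_antitone Y.P hi Y.a_mem
  exact map_derivedSeries_le_derivedSeries (iota Y X) i ⟨Y.a, h1, rfl⟩

lemma inD_all {v : X.Λ} {l : Y.P} (hl : ∀ l', X.lab v = some l' → l' = l) (i : ℕ)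
    (hi : i ≤ w + 1) :
    InD Y X v (ee Y l 0 + ee Y l 1) i ∧ InD Y X v (ee Y l 1 + ee Y l 2) i ∧
      InD Y X v (ee Y l 2 + ee Y l 0) i := by
  induction i with
  | zero =>
    refine ⟨⟨comp_add Y X (comp_ee Y X hl _) (comp_ee Y X hl _), by simp⟩,
      ⟨comp_add Y X (comp_ee Y X hl _) (comp_ee Y X hl _), by simp⟩,
      ⟨comp_add Y X (comp_ee Y X hl _) (comp_ee Y X hl _), by simp⟩⟩
  | succ i ih =>
    obtain ⟨h1, h2, h3⟩ := ih (by omega)
    have ha := iota_a_mem Y X (i := i) (by omega)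
    have k1 := h1.step Y X ha
    have k2 := h2.step Y X ha
    have k3 := h3.step Y X ha
    have t0 : ∀ x, ee Y l 0 (Y.a⁻¹ * x) = ee Y l 1 x := fun x => ee_tr Y l 0 x
    have t1 : ∀ x, ee Y l 1 (Y.a⁻¹ * x) = ee Y l 2 x := fun x => ee_tr Y l 1 x
    have t2 : ∀ x, ee Y l 2 (Y.a⁻¹ * x) = ee Y l 0 x := fun x => by
      rw [ee_tr Y l 2 x, ee_three]
    have two : (2 : ZMod 2) = 0 := rfl
    have e1 : ((ee Y l 0 + ee Y l 1) + fun x => (ee Y l 0 + ee Y l 1) (Y.a⁻¹ * x)) =
        ee Y l 2 + ee Y l 0 := by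
      funext x
      simp only [Pi.add_apply, t0, t1]
      linear_combination (ee Y l 1 x) * two
    have e2 : ((ee Y l 1 + ee Y l 2) + fun x => (ee Y l 1 + ee Y l 2) (Y.a⁻¹ * x)) =
        ee Y l 0 + ee Y l 1 := by
      funext x
      simp only [Pi.add_apply, t1, t2]
      linear_combination (ee Y l 2 x) * two
    have e3 : ((ee Y l 2 + ee Y l 0) + fun x => (ee Y l 2 + ee Y l 0) (Y.a⁻¹ * x)) =
        ee Y l 1 + ee Y l 2 := by
      funext x
      simp only [Pi.add_apply, t2, t0]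
      linear_combination (ee Y l 0 x) * two
    rw [e1] at k1
    rw [e2] at k2
    rw [e3] at k3
    exact ⟨k2, k3, k1⟩

/-- evaluation at `1` on the base group -/
def ev : (rho Y X).ker →* X.Q where
  toFun g := g.1.1.left 1
  map_one' := rfl
  map_mul' g g' := by
    show g.1.1.left 1 * g'.1.1.left (g.1.1.right⁻¹ * 1) = g.1.1.left 1 * g'.1.1.left 1
    have h : g.1.1.right = 1 := g.2
    rw [h, inv_one, one_mul]

/-- the values at `1` of the elements of the derived series -/
def EX (i : ℕ) : Subgroup X.Q :=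
  ((derivedSeries (GX Y X) (w + 1 + i)).subgroupOf (rho Y X).ker).map (ev Y X)

lemma EX_zero : EX Y X 0 = ⊤ := by
  rw [eq_top_iff, ← X.gen, Subgroup.closure_le]
  rintro _ ⟨v, rfl⟩
  obtain ⟨l, hl⟩ : ∃ l, ∀ l', X.lab v = some l' → l' = l := by
    cases hv : X.lab v with
    | none => exact ⟨1, fun l' h => by simp at h⟩
    | some l => exact ⟨l, fun l' h => (Option.some.inj h).symm⟩
  obtain ⟨hf, hm⟩ := (inD_all Y X hl (w + 1) le_rfl).1
  refine ⟨⟨⟨⟨fun x => gam Y X v ((ee Y l 0 + ee Y l 1) x), 1⟩, psi_mem Y X hf⟩, rfl⟩, hm, ?_⟩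
  show gam Y X v (ee Y l 0 1 + ee Y l 1 1) = X.g v
  have h0 : ee Y l 0 1 = 1 := by
    unfold ee
    rw [if_pos]
    simp
  have h1 : ee Y l 1 1 = 0 := by
    unfold ee
    rw [if_neg]
    intro h
    apply Y.a_conj l
    have := Y.H.inv_mem h
    convert this using 1
    group
  rw [h0, h1, add_zero, gam_one]

lemma EX_comm (i : ℕ) : ⁅EX Y X i, EX Y X i⁆ ≤ EX Y X (i + 1) := by
  unfold EX
  rw [← Subgroup.map_commutator]
  apply Subgroup.map_mono
  rw [Subgroup.commutator_le]
  intro g hg g' hg'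
  rw [Subgroup.mem_subgroupOf] at hg hg' ⊢
  rw [show w + 1 + (i + 1) = w + 1 + i + 1 by omega, derivedSeries_succ]
  exact Subgroup.commutator_mem_commutator hg hg'

lemma derivedSeries_le_EX (i : ℕ) : derivedSeries X.Q i ≤ EX Y X i := by
  induction i with
  | zero => rw [EX_zero]; exact le_top
  | succ i ih =>
    rw [derivedSeries_succ]
    exact (Subgroup.commutator_mono ih ih).trans (EX_comm Y X i)

theorem derivedSeries_GX_ne_bot : derivedSeries (GX Y X) (w + 1 + X.n) ≠ ⊥ := by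
  intro h
  apply X.der
  rw [eq_bot_iff]
  refine (derivedSeries_le_EX Y X X.n).trans ?_
  unfold EX
  rw [h, Subgroup.bot_subgroupOf, Subgroup.map_bot]

theorem GX_solvable : Group.IsSolvable (GX Y X) := by
  have h1 : Group.IsSolvable (MX Y X) := ⟨X.a + w, derivedSeries_MX_eq_bot Y X⟩
  have h2 := Y.solv
  have hle : (rho Y X).ker ≤ MX Y X := by
    intro g hg
    show rho Y X g ∈ Y.H
    rw [hg]
    exact Subgroup.one_mem _
  have h3 : Group.IsSolvable (rho Y X).ker :=
    Group.isSolvable_of_isSolvable_injective (Subgroup.inclusion_injective hle)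
  exact Group.isSolvable_of_ker_le_range (rho Y X).ker.subtype (rho Y X)
    (by rw [Subgroup.range_subtype])

end

theorem main1 {w k : ℕ} (Y : PD w) (X : QD Y.P w k) :
    ∃ (G : Type) (_ : Group G) (_ : Finite G) (M : Subgroup G) (a n : ℕ), Group.IsSolvable G ∧
      IsCoatom M ∧ derivedSeries M (a + w) = ⊥ ∧ derivedSeries G (w + 1 + n) ≠ ⊥ ∧ a + k = n + 1 :=
  ⟨GX Y X, inferInstance, inferInstance, MX Y X, X.a, X.n, GX_solvable Y X, MX_coatom Y X,
    derivedSeries_MX_eq_bot Y X, derivedSeries_GX_ne_bot Y X, X.eq⟩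

end Pool.Agent.K7.H71.MaxSub
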