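import Mathlib
import Pool.Agent.K7.H71.MaxSub.Wreath

set_option autoImplicit false

/-!
# The group `P`

For every `w ≥ 1` there is a finite soluble group `P = V H` with an irreducible elementary abelian
`3`-group `V`, a `2`-group `H` of derived length `w`, and `V ≤ P^(w)`.
-/

namespace Pool.Agent.K7.H71.MaxSub

open scoped commutatorElement

/-- The semidirect product of `V` and `H`. -/
@[ext] structure AP (V H : Type) where
  /-- the component in `V` -/
  v : V
  /-- the component in `H` -/
  h : H

namespace AP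

variable {V H : Type} [AddCommGroup V] [Group H] [DistribMulAction H V]

instance : Mul (AP V H) := ⟨fun x y => ⟨x.v + x.h • y.v, x.h * y.h⟩⟩
instance : One (AP V H) := ⟨⟨0, 1⟩⟩
instance : Inv (AP V H) := ⟨fun x => ⟨-(x.h⁻¹ • x.v), x.h⁻¹⟩⟩

lemma mul_v (x y : AP V H) : (x * y).v = x.v + x.h • y.v := rfl
lemma mul_h (x y : AP V H) : (x * y).h = x.h * y.h := rfl
lemma one_v : (1 : AP V H).v = 0 := rfl
lemma one_h : (1 : AP V H).h = 1 := rfl
lemma inv_v (x : AP V H) : (x⁻¹).v = -(x.h⁻¹ • x.v) := rfl
lemma inv_h (x : AP V H) : (x⁻¹).h = x.h⁻¹ := rfl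

instance : Group (AP V H) := Group.ofLeftAxioms
  (fun x y z => by ext1 <;> simp [mul_v, mul_h, smul_add, mul_smul, add_assoc, mul_assoc])
  (fun x => by ext1 <;> simp [mul_v, mul_h, one_v, one_h])
  (fun x => by ext1 <;> simp [mul_v, mul_h, one_v, one_h, inv_v, inv_h])

instance [Finite V] [Finite H] : Finite (AP V H) :=
  Finite.of_injective (fun x : AP V H => (x.v, x.h)) (fun _ _ h => by
    rw [Prod.mk.injEq] at h
    exact AP.ext h.1 h.2)

/-- the projection onto `H` -/
def pr : AP V H →* H where
  toFun := AP.h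
  map_one' := rfl
  map_mul' _ _ := rfl

/-- the embedding of `H` -/
def emb : H →* AP V H where
  toFun h := ⟨0, h⟩
  map_one' := rfl
  map_mul' x y := by ext1 <;> simp [mul_v, mul_h]

lemma emb_injective : Function.Injective (emb : H →* AP V H) := fun x y h => congrArg AP.h h

lemma mem_emb_range {x : AP V H} : x ∈ (emb : H →* AP V H).range ↔ x.v = 0 := by
  constructor
  · rintro ⟨y, rfl⟩; rfl
  · intro h
    exact ⟨x.h, AP.ext h.symm rfl⟩

/-- the additive subgroup of a subgroup of the semidirect product -/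
def sub (K : Subgroup (AP V H)) : AddSubgroup V where
  carrier := {v | (⟨v, 1⟩ : AP V H) ∈ K}
  zero_mem' := K.one_mem
  add_mem' := by
    intro u v hu hv
    have := K.mul_mem hu hv
    have e : (⟨u, 1⟩ : AP V H) * ⟨v, 1⟩ = ⟨u + v, 1⟩ := by ext1 <;> simp [mul_v, mul_h]
    rw [e] at this
    exact this
  neg_mem' := by
    intro v hv
    have := K.inv_mem hv
    have e : (⟨v, 1⟩ : AP V H)⁻¹ = ⟨-v, 1⟩ := by ext1 <;> simp [inv_v, inv_h]
    rw [e] at this
    exact this

lemma mem_sub {K : Subgroup (AP V H)} {v : V} : v ∈ sub K ↔ (⟨v, 1⟩ : AP V H) ∈ K := Iff.rfl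

lemma conj_eq (h : H) (v : V) : (emb h : AP V H) * ⟨v, 1⟩ * (emb h)⁻¹ = ⟨h • v, 1⟩ := by
  ext1 <;> simp [mul_v, mul_h, inv_v, inv_h, emb]

lemma comm_eq (h : H) (v : V) :
    ⁅(emb h : AP V H), (⟨v, 1⟩ : AP V H)⁆ = (⟨h • v - v, 1⟩ : AP V H) := by
  ext1 <;> simp [commutatorElement_def, mul_v, mul_h, inv_v, inv_h, emb, sub_eq_add_neg]

end AP

section

variable {V H : Type} [AddCommGroup V] [Group H] [DistribMulAction H V] [Finite V] [Finite H]

/-- the group `P` from an irreducible module -/
theorem exists_PD {w : ℕ} (hw : 1 ≤ w) (hH : derivedSeries H w = ⊥)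
    (hirr : ∀ W : AddSubgroup V, (∀ (h : H), ∀ v ∈ W, h • v ∈ W) → W = ⊥ ∨ W = ⊤)
    (h3 : ∀ v : V, v + v + v = 0) (h₀ : H) (hh₀ : h₀ ∈ derivedSeries H (w - 1)) (s : V)
    (hs : h₀ • s ≠ s) : Nonempty (PD w) := by
  have hs0 : s ≠ 0 := by rintro rfl; exact hs (smul_zero _)
  have hV : ∀ i, i ≤ w → ∀ v : V, (⟨v, 1⟩ : AP V H) ∈ derivedSeries (AP V H) i := by
    intro i
    induction i with
    | zero => intro _ v; simp
    | succ i ih =>
      intro hi v
      have hle : h₀ ∈ derivedSeries H i := derivedSeries_antitone H (by omega) hh₀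
      have h1 : (AP.emb h₀ : AP V H) ∈ derivedSeries (AP V H) i :=
        map_derivedSeries_le_derivedSeries AP.emb i ⟨h₀, hle, rfl⟩
      have h2 : ∀ u : V, h₀ • u - u ∈ AP.sub (derivedSeries (AP V H) (i + 1)) := by
        intro u
        rw [AP.mem_sub, ← AP.comm_eq, derivedSeries_succ]
        exact Subgroup.commutator_mem_commutator h1 (ih (by omega) u)
      rcases hirr (AP.sub (derivedSeries (AP V H) (i + 1))) (fun h u hu => by
        rw [AP.mem_sub, ← AP.conj_eq]
        exact (inferInstance : (derivedSeries (AP V H) (i + 1)).Normal).conj_mem _ hu _) with h4 | h4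
      · have := h2 s
        rw [h4, AddSubgroup.mem_bot, sub_eq_zero] at this
        exact absurd this hs
      · have : v ∈ AP.sub (derivedSeries (AP V H) (i + 1)) := by rw [h4]; trivial
        exact this
  refine ⟨{
    P := AP V H
    grp := inferInstance
    fin := inferInstance
    H := (AP.emb : H →* AP V H).range
    D := fun i => (derivedSeries H i).map AP.emb
    a := ⟨s, 1⟩
    D_zero := ?_
    D_le := ?_
    D_comm := ?_
    D_top := ?_
    coatom := ?_
    a_mem := hV w le_rfl s
    a_cube := ?_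
    a_conj := ?_
    solv := ?_ }⟩
  · rw [derivedSeries_zero, MonoidHom.range_eq_map]
  · intro i
    rw [MonoidHom.range_eq_map]
    exact Subgroup.map_mono le_top
  · intro i
    rw [← Subgroup.map_commutator, derivedSeries_succ]
  · rw [hH, Subgroup.map_bot]
  · constructor
    · intro h
      have : (⟨s, 1⟩ : AP V H) ∈ (AP.emb : H →* AP V H).range := by rw [h]; trivial
      rw [AP.mem_emb_range] at this
      exact hs0 this
    · intro K hK
      obtain ⟨x, hx, hx'⟩ := SetLike.exists_of_lt hK
      rw [AP.mem_emb_range] at hx'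
      have hemb : ∀ h : H, (AP.emb h : AP V H) ∈ K := fun h => hK.le ⟨h, rfl⟩
      have h1 : x.v ∈ AP.sub K := by
        rw [AP.mem_sub]
        have e : (⟨x.v, 1⟩ : AP V H) = x * (AP.emb x.h)⁻¹ := by
          ext1 <;> simp [AP.mul_v, AP.mul_h, AP.inv_v, AP.inv_h, AP.emb]
        rw [e]
        exact K.mul_mem hx (K.inv_mem (hemb _))
      rcases hirr (AP.sub K) (fun h u hu => by
        rw [AP.mem_sub, ← AP.conj_eq]
        exact K.mul_mem (K.mul_mem (hemb h) hu) (K.inv_mem (hemb h))) with h4 | h4
      · rw [h4, AddSubgroup.mem_bot] at h1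
        exact absurd h1 hx'
      · rw [eq_top_iff]
        intro y _
        have h5 : y.v ∈ AP.sub K := by rw [h4]; trivial
        rw [AP.mem_sub] at h5
        have e : y = (⟨y.v, 1⟩ : AP V H) * AP.emb y.h := by
          ext1 <;> simp [AP.mul_v, AP.mul_h, AP.emb]
        rw [e]
        exact K.mul_mem h5 (hemb _)
  · rw [pow_succ, pow_two]
    ext1
    · simp only [AP.mul_v, AP.mul_h, AP.one_v, one_smul, mul_one]
      exact h3 s
    · simp [AP.mul_h, AP.one_h]
  · intro x
    rw [AP.mem_emb_range]
    have e : (x * ⟨s, 1⟩ * x⁻¹).v = x.h • s := by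
      simp [AP.mul_v, AP.mul_h, AP.inv_v]
    rw [e]
    intro h
    apply hs0
    have := congrArg (fun v => x.h⁻¹ • v) h
    simpa using this
  · have h1 : Group.IsSolvable H := ⟨w, hH⟩
    have h2 : Group.IsSolvable (AP.pr : AP V H →* H).ker := by
      refine ⟨1, ?_⟩
      rw [derivedSeries_one, commutator_eq_bot_iff_center_eq_top, Subgroup.eq_top_iff']
      intro x
      rw [Subgroup.mem_center_iff]
      intro y
      apply Subtype.ext
      have hx : x.1.h = 1 := x.2
      have hy : y.1.h = 1 := y.2
      ext1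
      · show (y.1 * x.1).v = (x.1 * y.1).v
        rw [AP.mul_v, AP.mul_v, hx, hy, one_smul, one_smul, add_comm]
      · show (y.1 * x.1).h = (x.1 * y.1).h
        rw [AP.mul_h, AP.mul_h, hx, hy]
    exact Group.isSolvable_of_ker_le_range (AP.pr : AP V H →* H).ker.subtype (AP.pr : AP V H →* H)
      (by rw [Subgroup.range_subtype])

end

/-- a `2`-group of derived length exactly `w` -/
theorem exists_two_group (w : ℕ) (hw : 1 ≤ w) : ∃ (H : Type) (_ : Group H) (_ : Finite H),
    IsPGroup 2 H ∧ derivedSeries H w = ⊥ ∧ derivedSeries H (w - 1) ≠ ⊥ := by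
  obtain ⟨X⟩ := nonempty_QD Unit w w le_rfl
  have hn : w - 1 ≤ X.n := by have := X.eq; omega
  have h1 : derivedSeries X.Q (w - 1) ≠ ⊥ := by
    intro h
    apply X.der
    rw [eq_bot_iff, ← h]
    exact derivedSeries_antitone X.Q hn
  have hbot : derivedSeries X.Q (X.a + w) = ⊥ := by
    have : ∀ i, i ≤ X.a + w → derivedSeries X.Q i ≤ X.ch () (X.a + w - i) := by
      intro i
      induction i with
      | zero => intro _; rw [Nat.sub_zero, X.ch_top]; exact le_top
      | succ i ih =>
        intro hi
        have h2 := ih (by omega)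
        obtain ⟨j, hj⟩ : ∃ j, X.a + w - i = j + 1 := ⟨X.a + w - i - 1, by omega⟩
        have hj' : X.a + w - (i + 1) = j := by omega
        rw [hj] at h2
        rw [hj', derivedSeries_succ]
        exact (Subgroup.commutator_mono h2 h2).trans (X.ch_comm () j)
    have h2 := this _ le_rfl
    rw [Nat.sub_self, X.ch_zero] at h2
    exact le_bot_iff.1 h2
  refine ⟨X.Q ⧸ derivedSeries X.Q w, inferInstance, inferInstance, ?_, ?_, ?_⟩
  · exact X.two.to_quotient _
  · rw [← map_derivedSeries_eq (QuotientGroup.mk'_surjective (derivedSeries X.Q w)) w]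
    rw [eq_bot_iff]
    rintro _ ⟨x, hx, rfl⟩
    rw [Subgroup.mem_bot]
    exact (QuotientGroup.eq_one_iff x).2 hx
  · intro h
    rw [← map_derivedSeries_eq (QuotientGroup.mk'_surjective (derivedSeries X.Q w)) (w - 1)] at h
    have hle : derivedSeries X.Q (w - 1) ≤ derivedSeries X.Q w := by
      intro x hx
      have : QuotientGroup.mk' (derivedSeries X.Q w) x ∈
          (derivedSeries X.Q (w - 1)).map (QuotientGroup.mk' (derivedSeries X.Q w)) := ⟨x, hx, rfl⟩
      rw [h, Subgroup.mem_bot] at this
      exact (QuotientGroup.eq_one_iff x).1 this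
    have hall : ∀ j, derivedSeries X.Q (w - 1) ≤ derivedSeries X.Q (w - 1 + j) := by
      intro j
      induction j with
      | zero => exact le_rfl
      | succ j ih =>
        have e : derivedSeries X.Q w =
            ⁅derivedSeries X.Q (w - 1), derivedSeries X.Q (w - 1)⁆ := by
          have := derivedSeries_succ X.Q (w - 1)
          rwa [show w - 1 + 1 = w by omega] at this
        have h2 : derivedSeries X.Q w ≤ derivedSeries X.Q (w - 1 + (j + 1)) := by
          rw [show w - 1 + (j + 1) = (w - 1 + j) + 1 by omega, derivedSeries_succ, e]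
          exact Subgroup.commutator_mono ih ih
        exact hle.trans h2
    apply h1
    rw [eq_bot_iff]
    refine (hall (X.a + w)).trans ?_
    rw [← hbot]
    exact derivedSeries_antitone X.Q (by omega)

theorem nonempty_PD (w : ℕ) (hw : 1 ≤ w) : Nonempty (PD w) := by
  obtain ⟨H, _, _, h2, h3, h4⟩ := exists_two_group w hw
  obtain ⟨h₀, hh₀, hne⟩ : ∃ h₀ ∈ derivedSeries H (w - 1), h₀ ≠ 1 := by
    by_contra hcon
    push Not at hcon
    exact h4 (eq_bot_iff.2 fun x hx => Subgroup.mem_bot.2 (hcon x hx))
  obtain ⟨e, he⟩ := (IsPGroup.iff_card).1 h2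
  have : Fact (Nat.Prime 3) := ⟨Nat.prime_three⟩
  have : NeZero (Nat.card H : ZMod 3) := by
    refine ⟨fun h => ?_⟩
    rw [he, ZMod.natCast_eq_zero_iff] at h
    have := Nat.Prime.dvd_of_dvd_pow Nat.prime_three h
    omega
  let R := MonoidAlgebra (ZMod 3) H
  have hss := IsSemisimpleModule.sSup_simples_eq_top R R
  obtain ⟨m, hm, s, hs, hms⟩ : ∃ m : Submodule R R, IsSimpleModule R m ∧ ∃ s ∈ m,
      MonoidAlgebra.of (ZMod 3) H h₀ • s ≠ s := by
    by_contra hcon
    push Not at hcon
    have h1 : (1 : R) ∈ sSup { m : Submodule R R | IsSimpleModule R m } := by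
      rw [hss]; trivial
    rw [sSup_eq_iSup'] at h1
    have h5 : MonoidAlgebra.of (ZMod 3) H h₀ • (1 : R) = 1 := by
      refine Submodule.iSup_induction _
        (motive := fun x : R => MonoidAlgebra.of (ZMod 3) H h₀ • x = x) h1
        (fun i x hx => hcon i.1 i.2 x hx) (smul_zero _) (fun x y hx hy => ?_)
      rw [smul_add, hx, hy]
    rw [smul_eq_mul, mul_one] at h5
    have h6 : MonoidAlgebra.of (ZMod 3) H h₀ = MonoidAlgebra.of (ZMod 3) H 1 := by
      rw [h5, map_one]
    exact hne (MonoidAlgebra.of_injective h6)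
  have : Finite R := Finite.of_injective (fun x : R => (fun h => x.coeff h : H → ZMod 3))
    (fun x y h => MonoidAlgebra.coeff_injective (Finsupp.ext (fun i => congrFun h i)))
  let _ : DistribMulAction H m := DistribMulAction.compHom m (MonoidAlgebra.of (ZMod 3) H)
  have : Finite m := inferInstance
  refine exists_PD (V := m) (H := H) hw h3 ?_ ?_ h₀ hh₀ ⟨s, hs⟩ ?_
  · intro W hW
    let W' : Submodule R m :=
      { carrier := W
        add_mem' := W.add_mem
        zero_mem' := W.zero_mem
        smul_mem' := by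
          intro r v hv
          induction r using MonoidAlgebra.induction_on with
          | of g => exact hW g v hv
          | add x y hx hy => rw [add_smul]; exact W.add_mem hx hy
          | smul c x hx =>
            have e : c • x = (c.val : ℕ) • x := by
              conv_lhs => rw [← ZMod.natCast_zmod_val c]
              rw [Nat.cast_smul_eq_nsmul]
            rw [e, smul_assoc]
            exact W.nsmul_mem hx _ }
    rcases hm.eq_bot_or_eq_top W' with h | h
    · left
      rw [eq_bot_iff]
      intro v hv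
      have : v ∈ W' := hv
      rw [h] at this
      exact this
    · right
      rw [eq_top_iff]
      intro v _
      have : v ∈ W' := by rw [h]; trivial
      exact this
  · intro v
    apply Subtype.ext
    show (v : R) + (v : R) + (v : R) = 0
    have e : (v : R) + (v : R) + (v : R) = (3 : ZMod 3) • (v : R) := by
      rw [show (3 : ZMod 3) = 1 + 1 + 1 by norm_num, add_smul, add_smul, one_smul]
    rw [e, show (3 : ZMod 3) = 0 from rfl, zero_smul]
  · intro h
    exact hms (congrArg Subtype.val h)

end Pool.Agent.K7.H71.MaxSub
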