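import Mathlib
import Pool.Agent.K7.H71.MaxSub.Base

set_option autoImplicit false

/-!
# The derived length of maximal subgroups of finite soluble groups

For every `k` there are a finite soluble group `G` and a maximal subgroup `M` of `G` with
`d(G) - d(M) > k`.
-/

namespace Pool.Agent.K7.H71.MaxSub.Final

open K7.H71.MaxSub

/-- The derived length `d(G)`: the least `n` with `G^(n) = 1`. -/
noncomputable def dl (G : Type) [Group G] : ℕ := sInf {n : ℕ | derivedSeries G n = ⊥}

theorem result : ∀ k : ℕ, ∃ (G : Type) (_ : Group G) (_ : Finite G) (M : Subgroup G),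
    Group.IsSolvable G ∧ IsCoatom M ∧ dl M + k < dl G := by
  intro k
  obtain ⟨Y⟩ := nonempty_PD (k + 1) (by omega)
  obtain ⟨X⟩ := nonempty_QD Y.P (k + 1) k (by omega)
  obtain ⟨G, hG, hF, M, a, n, h1, h2, h3, h4, h5⟩ := main1 Y X
  refine ⟨G, hG, hF, M, h1, h2, ?_⟩
  have hM : dl M ≤ a + (k + 1) := Nat.sInf_le h3
  have hmem : derivedSeries G (dl G) = ⊥ := Nat.sInf_mem ((Group.isSolvable_def G).1 h1)
  have hGn : (k + 1) + 1 + n < dl G := by
    by_contra hle
    push Not at hle
    apply h4
    rw [eq_bot_iff, ← hmem]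
    exact derivedSeries_antitone G hle
  omega

end Pool.Agent.K7.H71.MaxSub.Final
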